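import Pool.Agent.K4H60.BZ.Samp

/-!
# Iterated almost periods
-/

set_option autoImplicit false
set_option linter.unusedSectionVars false

namespace Pool.Agent.K4H60.BZ

open Finset
open scoped Pointwise

variable {G : Type*} [AddCommGroup G] [Fintype G] [DecidableEq G]

/-- the `L^p` norm -/
noncomputable def nrm (p : ℝ) (f : G → ℝ) : ℝ := (∑ z, |f z| ^ p) ^ (1 / p)

theorem nrm_add (p : ℝ) (hp : 1 ≤ p) (f g : G → ℝ) : nrm p (fun z => f z + g z) ≤ nrm p f + nrm p g :=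
  Real.Lp_add_le univ f g hp

theorem nrm_neg (p : ℝ) (f : G → ℝ) : nrm p (fun z => - f z) = nrm p f := by
  unfold nrm
  simp only [abs_neg]

theorem nrm_shift (p : ℝ) (f : G → ℝ) (y : G) : nrm p (fun z => f (z + y)) = nrm p f := by
  unfold nrm
  congr 1
  exact Equiv.sum_comp (Equiv.addRight y) (fun z => |f z| ^ p)

theorem nrm_le (q : ℕ) (hq : 0 < q) (f : G → ℝ) (M : ℝ) (h : ∑ z, (f z) ^ (2 * q) ≤ M) :
    nrm (2 * q) f ≤ M ^ (1 / (2 * q : ℝ)) := by
  unfold nrm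
  apply Real.rpow_le_rpow
  · exact sum_nonneg fun z _ => Real.rpow_nonneg (abs_nonneg _) _
  · refine le_trans (le_of_eq ?_) h
    apply sum_congr rfl
    intro z _
    have : (2 * q : ℝ) = ((2 * q : ℕ) : ℝ) := by push_cast; ring
    rw [this, Real.rpow_natCast, pow_mul, pow_mul, sq_abs]
  · positivity

theorem nrm_pow (q : ℕ) (hq : 0 < q) (f : G → ℝ) : (nrm (2 * q) f) ^ (2 * q) = ∑ z, (f z) ^ (2 * q) := by
  unfold nrm
  have hq' : (0 : ℝ) < q := by exact_mod_cast hq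
  have e0 : (2 * q : ℝ) = ((2 * q : ℕ) : ℝ) := by push_cast; ring
  rw [← Real.rpow_natCast, ← Real.rpow_mul (sum_nonneg fun z _ => Real.rpow_nonneg (abs_nonneg _) _)]
  have e1 : 1 / (2 * (q : ℝ)) * ((2 * q : ℕ) : ℝ) = 1 := by
    push_cast
    field_simp
  rw [e1, Real.rpow_one]
  apply sum_congr rfl
  intro z _
  rw [e0, Real.rpow_natCast, pow_mul, pow_mul, sq_abs]

theorem almost (A D T : Finset G) (F : G → ℝ) (n q : ℕ) (hq : 0 < q) (M : ℝ)
    (hT : ∀ s ∈ T, ∑ z, (F z - n * hh A D (z + s)) ^ (2 * q) ≤ M) (m : ℕ) :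
    ∀ (s s' : Fin m → G), (∀ i, s i ∈ T) → (∀ i, s' i ∈ T) →
    nrm (2 * q) (fun z => n * hh A D (z + ∑ i, (s i - s' i)) - n * hh A D z) ≤
      2 * m * M ^ (1 / (2 * q : ℝ)) := by
  have hp : (1 : ℝ) ≤ 2 * q := by
    have : (1 : ℝ) ≤ q := by exact_mod_cast hq
    linarith
  have h1 : ∀ s ∈ T, ∀ s' ∈ T, nrm (2 * q) (fun z => n * hh A D (z + (s - s')) - n * hh A D z) ≤
      2 * M ^ (1 / (2 * q : ℝ)) := by
    intro s hs s' hs'
    rw [← nrm_shift (2 * q) (fun z => n * hh A D (z + (s - s')) - n * hh A D z) s']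
    have e1 : (fun z => n * hh A D (z + s' + (s - s')) - n * hh A D (z + s')) =
        fun z => (- (F z - n * hh A D (z + s))) + (F z - n * hh A D (z + s')) := by
      funext z
      have : z + s' + (s - s') = z + s := by abel
      rw [this]
      ring
    rw [e1]
    refine (nrm_add _ hp (fun z => - (F z - n * hh A D (z + s))) (fun z => F z - n * hh A D (z + s'))).trans ?_
    rw [nrm_neg _ (fun z => F z - n * hh A D (z + s))]
    have e2 := nrm_le q hq _ M (hT s hs)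
    have e3 := nrm_le q hq _ M (hT s' hs')
    linarith
  induction m with
  | zero =>
    intro s s' _ _
    simp only [univ_eq_empty, sum_empty, add_zero, sub_self, Nat.cast_zero, mul_zero, zero_mul]
    unfold nrm
    have : (2 * (q : ℝ)) ≠ 0 := by
      have : (0 : ℝ) < q := by exact_mod_cast hq
      positivity
    simp only [abs_zero, Real.zero_rpow this, sum_const_zero]
    rw [Real.zero_rpow]
    have hq' : (0 : ℝ) < q := by exact_mod_cast hq
    have h2 : (0 : ℝ) < 1 / (2 * (q : ℝ)) := by positivity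
    exact h2.ne'
  | succ m ih =>
    intro s s' hs hs'
    have e1 : (fun z => n * hh A D (z + ∑ i, (s i - s' i)) - n * hh A D z) =
        fun z => (n * hh A D (z + (∑ i : Fin m, (s i.castSucc - s' i.castSucc)) + (s (Fin.last m) - s' (Fin.last m)))
            - n * hh A D (z + ∑ i : Fin m, (s i.castSucc - s' i.castSucc))) +
          (n * hh A D (z + ∑ i : Fin m, (s i.castSucc - s' i.castSucc)) - n * hh A D z) := by
      funext z
      rw [Fin.sum_univ_castSucc, ← add_assoc]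
      ring
    rw [e1]
    refine (nrm_add _ hp _ _).trans ?_
    have e2 := nrm_shift (2 * q : ℝ) (fun z => n * hh A D (z + (s (Fin.last m) - s' (Fin.last m))) - n * hh A D z)
      (∑ i : Fin m, (s i.castSucc - s' i.castSucc))
    rw [e2]
    have e3 := h1 _ (hs (Fin.last m)) _ (hs' (Fin.last m))
    have e4 := ih (fun i => s i.castSucc) (fun i => s' i.castSucc) (fun i => hs _) (fun i => hs' _)
    push_cast
    linarith

/-- The sampling lemma in the form in which it is used. -/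
theorem samp_final (A : Finset G) (hA : A.Nonempty) (q m : ℕ) (hq : 0 < q) (hm : 0 < m)
    (hK : 4 * ((A - A - A).card : ℝ) ≤ Real.exp q * A.card) :
    ∃ T ⊆ A, (A.card : ℝ) ^ (1000 * q * m ^ 2 + 1) ≤ 2 * ((A + A).card : ℝ) ^ (1000 * q * m ^ 2) * T.card ∧
      ∀ s s' : Fin m → G, (∀ i, s i ∈ T) → (∀ i, s' i ∈ T) →
        3 / 4 * (A.card : ℝ) ^ 2 ≤ ∑ a ∈ A, ∑ b ∈ A, ind (A - A) (a - b + ∑ i, (s i - s' i)) := by
  obtain ⟨n, hn⟩ : ∃ n : ℕ, n = 1000 * q * m ^ 2 := ⟨_, rfl⟩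
  have hn0 : 0 < n := by rw [hn]; positivity
  have hApos : (0 : ℝ) < A.card := by exact_mod_cast hA.card_pos
  have hnpos : (0 : ℝ) < n := by exact_mod_cast hn0
  obtain ⟨T, hTA, hcard, F, hF⟩ := sampled A (A - A) A hA (hA.sub hA) hA n q hn0 hq
  rw [← hn]
  refine ⟨T, hTA, ?_, ?_⟩
  · have : (A.card : ℝ) * A.card ^ n ≤ 2 * ((A + A).card : ℝ) ^ n * T.card := by exact_mod_cast hcard
    rw [pow_succ]
    linarith
  intro s s' hs hs'
  obtain ⟨y, hy⟩ : ∃ y, y = ∑ i, (s i - s' i) := ⟨_, rfl⟩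
  obtain ⟨M, hM⟩ : ∃ M : ℝ, M = 4 * ((A - A - A).card : ℝ) * (2 * Real.exp 1 * q * n) ^ q := ⟨_, rfl⟩
  rw [← hM] at hF
  have hM0 : 0 ≤ M := by rw [hM]; positivity
  have h1 := almost A (A - A) T F n q hq M hF m s s' hs hs'
  rw [← hy] at h1
  have h2 : ∑ z, (n * hh A (A - A) (z + y) - n * hh A (A - A) z) ^ (2 * q) ≤ (2 * m) ^ (2 * q) * M := by
    rw [← nrm_pow q hq]
    have h3 : 0 ≤ nrm (2 * q : ℝ) (fun z => n * hh A (A - A) (z + y) - n * hh A (A - A) z) := by
      unfold nrm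
      exact Real.rpow_nonneg (sum_nonneg fun z _ => Real.rpow_nonneg (abs_nonneg _) _) _
    calc _ ≤ (2 * m * M ^ (1 / (2 * q : ℝ))) ^ (2 * q) := by gcongr
      _ = _ := by
        rw [mul_pow]
        congr 1
        rw [← Real.rpow_natCast, ← Real.rpow_mul hM0]
        have hq' : (0 : ℝ) < q := by exact_mod_cast hq
        have : 1 / (2 * (q : ℝ)) * ((2 * q : ℕ) : ℝ) = 1 := by push_cast; field_simp
        rw [this, Real.rpow_one]
  obtain ⟨c, hc⟩ : ∃ c : G → ℝ, c = fun b => |n * hh A (A - A) (-b + y) - n * hh A (A - A) (-b)| := ⟨_, rfl⟩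
  have h3 : ∑ b ∈ A, (c b) ^ (2 * q) ≤ (2 * m) ^ (2 * q) * M := by
    refine le_trans ?_ h2
    have e1 : ∀ b, (c b) ^ (2 * q) = (n * hh A (A - A) (-b + y) - n * hh A (A - A) (-b)) ^ (2 * q) := by
      intro b
      rw [hc, pow_mul, pow_mul, sq_abs]
    simp_rw [e1]
    have e2 : ∀ b, 0 ≤ (n * hh A (A - A) (-b + y) - n * hh A (A - A) (-b)) ^ (2 * q) := by
      intro b
      rw [pow_mul]; positivity
    calc _ ≤ ∑ b, (n * hh A (A - A) (-b + y) - n * hh A (A - A) (-b)) ^ (2 * q) :=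
          sum_le_sum_of_subset_of_nonneg (subset_univ _) fun b _ _ => e2 b
      _ = _ := Equiv.sum_comp (Equiv.neg G) (fun z => (n * hh A (A - A) (z + y) - n * hh A (A - A) z) ^ (2 * q))
  have hc0 : ∀ b, 0 ≤ c b := by intro b; rw [hc]; exact abs_nonneg _
  have h4 : (∑ b ∈ A, c b) ^ (2 * q) ≤ (A.card : ℝ) ^ (2 * q) * ((2 * m) ^ (2 * q) * (Real.exp q * (2 * Real.exp 1 * q * n) ^ q)) := by
    have e1 := pow_sum_div_card_le_sum_pow (s := A) (f := c) (fun b _ => hc0 b) (2 * q - 1)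
    have e2 : 2 * q - 1 + 1 = 2 * q := by omega
    rw [e2, div_le_iff₀ (by positivity)] at e1
    refine e1.trans ?_
    calc (∑ b ∈ A, c b ^ (2 * q)) * (A.card : ℝ) ^ (2 * q - 1)
        ≤ ((2 * m) ^ (2 * q) * M) * (A.card : ℝ) ^ (2 * q - 1) := by gcongr
      _ ≤ ((2 * m) ^ (2 * q) * ((Real.exp q * A.card) * (2 * Real.exp 1 * q * n) ^ q)) * (A.card : ℝ) ^ (2 * q - 1) := by
          rw [hM]
          gcongr
      _ = (A.card : ℝ) ^ (2 * q - 1 + 1) * ((2 * m) ^ (2 * q) * (Real.exp q * (2 * Real.exp 1 * q * n) ^ q)) := by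
          rw [pow_succ]; ring
      _ = _ := by rw [e2]
  have h5 : (A.card : ℝ) ^ (2 * q) * ((2 * m) ^ (2 * q) * (Real.exp q * (2 * Real.exp 1 * q * n) ^ q)) ≤
      (A.card * n / 4) ^ (2 * q) := by
    have e1 : Real.exp (q : ℝ) = (Real.exp 1) ^ q := by rw [← Real.exp_nat_mul, mul_one]
    rw [e1, pow_mul, pow_mul, pow_mul, ← mul_pow, ← mul_pow, ← mul_pow]
    apply pow_le_pow_left₀ (by positivity)
    have e2 : (Real.exp 1) ^ 2 ≤ 7.4 := by
      have := Real.exp_one_lt_d9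
      have h0 := Real.exp_pos 1
      nlinarith
    have e3 : (n : ℝ) = 1000 * q * m ^ 2 := by rw [hn]; push_cast; ring
    have e4 : (A.card : ℝ) ^ 2 * ((2 * m) ^ 2 * (Real.exp 1 * (2 * Real.exp 1 * q * n))) =
        (A.card : ℝ) ^ 2 * n * (8 * q * m ^ 2 * (Real.exp 1) ^ 2) := by ring
    rw [e4]
    have e5 : (A.card * n / 4 : ℝ) ^ 2 = (A.card : ℝ) ^ 2 * n * (n / 16) := by ring
    rw [e5]
    have e6 : 8 * q * m ^ 2 * (Real.exp 1) ^ 2 ≤ (n : ℝ) / 16 := by
      have hqm : (0 : ℝ) ≤ (q : ℝ) * m ^ 2 := by positivity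
      rw [e3]
      nlinarith
    gcongr
  have h6 : ∑ b ∈ A, c b ≤ A.card * n / 4 := by
    have := h4.trans h5
    exact le_of_pow_le_pow_left₀ (by omega) (by positivity) this
  have h7 : ∀ b ∈ A, hh A (A - A) (-b) = 1 := by
    intro b hb
    unfold hh
    have : ∀ a ∈ A, ind (A - A) (a + -b) = 1 := by
      intro a ha
      unfold ind
      rw [if_pos]
      rw [← sub_eq_add_neg]
      exact sub_mem_sub ha hb
    rw [sum_congr rfl this]
    simp only [sum_const, nsmul_eq_mul, mul_one]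
    exact div_self hApos.ne'
  have h8 : ∑ b ∈ A, (1 - hh A (A - A) (-b + y)) ≤ A.card / 4 := by
    have e1 : ∀ b ∈ A, n * (1 - hh A (A - A) (-b + y)) ≤ c b := by
      intro b hb
      rw [hc]
      simp only
      rw [h7 b hb, abs_sub_comm]
      refine le_trans (le_of_eq ?_) (le_abs_self _)
      ring
    have e2 : n * ∑ b ∈ A, (1 - hh A (A - A) (-b + y)) ≤ n * (A.card / 4) := by
      rw [mul_sum]
      refine (sum_le_sum e1).trans (h6.trans (le_of_eq ?_))
      ring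
    exact le_of_mul_le_mul_left e2 hnpos
  rw [← hy, sum_comm]
  have h9 : ∀ b ∈ A, ∑ a ∈ A, ind (A - A) (a - b + y) = A.card * hh A (A - A) (-b + y) := by
    intro b _
    unfold hh
    rw [mul_div_cancel₀ _ hApos.ne']
    apply sum_congr rfl
    intro a _
    congr 1
    abel
  rw [sum_congr rfl h9, ← mul_sum]
  rw [sum_sub_distrib] at h8
  simp only [sum_const, nsmul_eq_mul, mul_one] at h8
  have h10 : 3 / 4 * (A.card : ℝ) ≤ ∑ b ∈ A, hh A (A - A) (-b + y) := by linarith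
  calc 3 / 4 * (A.card : ℝ) ^ 2 = A.card * (3 / 4 * (A.card : ℝ)) := by ring
    _ ≤ _ := by gcongr

end Pool.Agent.K4H60.BZ
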