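import Mathlib

/-!
# Rudin's inequality and Chang's theorem
-/

set_option autoImplicit false
set_option linter.unusedSectionVars false

namespace Pool.Agent.K4H60.BZ

open Finset
open scoped Pointwise BigOperators ComplexConjugate

variable {G : Type*} [AddCommGroup G] [Fintype G] [DecidableEq G]

theorem rudin (Λ : Finset (AddChar G ℂ)) (hΛ : AddDissociated (Λ : Set (AddChar G ℂ)))
    (c : AddChar G ℂ → ℂ) (hc : ∀ ψ ∈ Λ, ‖c ψ‖ ≤ 1) (t : ℝ) :
    ∑ x : G, Real.exp (t * ∑ ψ ∈ Λ, (c ψ * ψ x).re) ≤ Fintype.card G * Real.exp (t ^ 2 * Λ.card / 2) := by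
  classical
  obtain ⟨c', hc'⟩ : ∃ c' : AddChar G ℂ → ℝ, c' = fun ψ => if ψ ∈ Λ then Real.cosh t else 1 := ⟨_, rfl⟩
  obtain ⟨d, hd⟩ : ∃ d : AddChar G ℂ → ℂ, d = fun ψ => if ψ ∈ Λ then (Real.sinh t : ℂ) * c ψ else 0 := ⟨_, rfl⟩
  have hdis : AddDissociated {ψ | d ψ ≠ 0} := by
    apply AddDissociated.subset _ hΛ
    intro ψ hψ
    by_contra hcon
    apply hψ
    rw [hd]
    simp only
    rw [if_neg]
    exact hcon
  have h1 := AddDissociated.randomisation c' d hdis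
  have h2 : ∀ x : G, Real.exp (t * ∑ ψ ∈ Λ, (c ψ * ψ x).re) ≤ ∏ ψ, (c' ψ + (d ψ * ψ x).re) := by
    intro x
    have e1 : ∏ ψ, (c' ψ + (d ψ * ψ x).re) = ∏ ψ ∈ Λ, (Real.cosh t + (c ψ * ψ x).re * Real.sinh t) := by
      symm
      have e2 : ∏ ψ ∈ Λ, (Real.cosh t + (c ψ * ψ x).re * Real.sinh t) = ∏ ψ ∈ Λ, (c' ψ + (d ψ * ψ x).re) := by
        apply prod_congr rfl
        intro ψ hψ
        rw [hc', hd]
        simp only
        rw [if_pos hψ, if_pos hψ, mul_assoc, Complex.re_ofReal_mul]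
        ring
      rw [e2]
      apply prod_subset (subset_univ _)
      intro ψ _ hψ
      rw [hc', hd]
      simp only
      rw [if_neg hψ, if_neg hψ]
      simp
    rw [e1, mul_sum, Real.exp_sum]
    apply prod_le_prod
    · intro ψ _
      exact (Real.exp_pos _).le
    · intro ψ hψ
      rw [mul_comm t]
      apply Real.exp_mul_le_cosh_add_mul_sinh
      refine (Complex.abs_re_le_norm _).trans ?_
      rw [norm_mul, AddChar.norm_apply, mul_one]
      exact hc ψ hψ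
  have h3 : ∏ ψ, c' ψ = Real.cosh t ^ Λ.card := by
    rw [hc']
    rw [prod_ite_mem, univ_inter, prod_const]
  have h4 : ∑ x : G, ∏ ψ, (c' ψ + (d ψ * ψ x).re) = Fintype.card G * Real.cosh t ^ Λ.card := by
    rw [← h3, ← h1, Fintype.expect_eq_sum_div_card]
    have : (Fintype.card G : ℝ) ≠ 0 := by exact_mod_cast Fintype.card_ne_zero
    field_simp
  calc _ ≤ ∑ x : G, ∏ ψ, (c' ψ + (d ψ * ψ x).re) := sum_le_sum fun x _ => h2 x
    _ = Fintype.card G * Real.cosh t ^ Λ.card := h4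
    _ ≤ Fintype.card G * (Real.exp (t ^ 2 / 2)) ^ Λ.card := by
        have := Real.cosh_le_exp_half_sq t
        have h0 : 0 ≤ Real.cosh t := (Real.cosh_pos t).le
        gcongr
    _ = _ := by
        rw [← Real.exp_nat_mul]
        congr 2
        ring

theorem chang (T : Finset G) (hT : T.Nonempty) (Λ : Finset (AddChar G ℂ))
    (hΛ : AddDissociated (Λ : Set (AddChar G ℂ)))
    (hspec : ∀ ψ ∈ Λ, (T.card : ℝ) / 2 ≤ ‖∑ x ∈ T, ψ x‖) :
    (Λ.card : ℝ) ≤ 8 * Real.log (Fintype.card G / T.card) := by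
  classical
  have hTpos : (0 : ℝ) < T.card := by exact_mod_cast hT.card_pos
  obtain ⟨c, hc⟩ : ∃ c : AddChar G ℂ → ℂ, c = fun ψ : AddChar G ℂ =>
    conj (∑ x ∈ T, ψ x) / ((‖∑ x ∈ T, ψ x‖ : ℝ) : ℂ) := ⟨_, rfl⟩
  have hcn : ∀ ψ ∈ Λ, ‖c ψ‖ ≤ 1 := by
    intro ψ hψ
    rw [hc]
    simp only [norm_div, RCLike.norm_conj, Complex.norm_real, norm_norm]
    exact div_self_le_one _
  have hcs : ∀ ψ ∈ Λ, ∑ x ∈ T, (c ψ * ψ x).re = ‖∑ x ∈ T, ψ x‖ := by
    intro ψ hψ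
    rw [← Complex.re_sum, ← mul_sum, hc]
    simp only
    have hne : (‖∑ x ∈ T, ψ x‖ : ℂ) ≠ 0 := by
      have := hspec ψ hψ
      have h2 : 0 < ‖∑ x ∈ T, ψ x‖ := by linarith
      exact_mod_cast h2.ne'
    have e1 : conj (∑ x ∈ T, ψ x) / ‖∑ x ∈ T, ψ x‖ * ∑ x ∈ T, ψ x = (‖∑ x ∈ T, ψ x‖ : ℂ) := by
      rw [div_mul_eq_mul_div, mul_comm, Complex.mul_conj, div_eq_iff hne, Complex.normSq_eq_norm_sq]
      push_cast
      ring
    rw [e1, Complex.ofReal_re]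
  obtain ⟨u, hu⟩ : ∃ u : G → ℝ, u = fun x => ∑ ψ ∈ Λ, (c ψ * ψ x).re := ⟨_, rfl⟩
  have h1 : (Λ.card : ℝ) * (T.card / 2) ≤ ∑ x ∈ T, u x := by
    rw [hu, sum_comm, ← nsmul_eq_mul, ← sum_const]
    apply sum_le_sum
    intro ψ hψ
    rw [hcs ψ hψ]
    exact hspec ψ hψ
  have h2 : Real.exp (∑ x ∈ T, (1 / T.card : ℝ) • (1 / 2 * u x)) ≤
      ∑ x ∈ T, (1 / T.card : ℝ) • Real.exp (1 / 2 * u x) := by
    apply convexOn_exp.map_sum_le
    · intro i _
      positivity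
    · rw [sum_const, nsmul_eq_mul]
      field_simp
    · intro i _
      trivial
  have h3 : ∑ x ∈ T, (1 / T.card : ℝ) • Real.exp (1 / 2 * u x) ≤
      (1 / T.card : ℝ) * (Fintype.card G * Real.exp ((1 / 2) ^ 2 * Λ.card / 2)) := by
    simp only [smul_eq_mul]
    rw [← mul_sum]
    gcongr
    calc _ ≤ ∑ x : G, Real.exp (1 / 2 * u x) :=
          sum_le_sum_of_subset_of_nonneg (subset_univ _) fun x _ _ => (Real.exp_pos _).le
      _ ≤ _ := by
          rw [hu]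
          exact rudin Λ hΛ c hcn (1 / 2)
  have h4 : (Λ.card : ℝ) / 4 ≤ ∑ x ∈ T, (1 / T.card : ℝ) • (1 / 2 * u x) := by
    simp only [smul_eq_mul]
    rw [← mul_sum, ← mul_sum]
    calc (Λ.card : ℝ) / 4 = (1 / T.card : ℝ) * (1 / 2 * ((Λ.card : ℝ) * (T.card / 2))) := by
          field_simp
          norm_num
      _ ≤ _ := by gcongr
  have h5 : Real.exp ((Λ.card : ℝ) / 4) ≤ (Fintype.card G / T.card) * Real.exp ((Λ.card : ℝ) / 8) := by
    calc _ ≤ Real.exp (∑ x ∈ T, (1 / T.card : ℝ) • (1 / 2 * u x)) := Real.exp_le_exp.2 h4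
      _ ≤ _ := h2.trans h3
      _ = _ := by
        rw [show (1 / 2 : ℝ) ^ 2 * Λ.card / 2 = (Λ.card : ℝ) / 8 by ring]
        ring
  have hGpos : (0 : ℝ) < Fintype.card G := by exact_mod_cast Fintype.card_pos
  have h6 : Real.exp ((Λ.card : ℝ) / 8) ≤ Fintype.card G / T.card := by
    have e1 : Real.exp ((Λ.card : ℝ) / 4) = Real.exp ((Λ.card : ℝ) / 8) * Real.exp ((Λ.card : ℝ) / 8) := by
      rw [← Real.exp_add]
      congr 1
      ring
    rw [e1] at h5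
    exact le_of_mul_le_mul_right h5 (Real.exp_pos _)
  have h7 : (Λ.card : ℝ) / 8 ≤ Real.log (Fintype.card G / T.card) := by
    rw [Real.le_log_iff_exp_le (by positivity)]
    exact h6
  linarith

theorem spec_span (T : Finset G) (hT : T.Nonempty) :
    ∃ Λ : Finset (AddChar G ℂ), (Λ.card : ℝ) ≤ 8 * Real.log (Fintype.card G / T.card) ∧
      ∀ ψ : AddChar G ℂ, (T.card : ℝ) / 2 ≤ ‖∑ x ∈ T, ψ x‖ →
        ∃ ε : AddChar G ℂ → ℤ, (∀ a, |ε a| ≤ 1) ∧ ψ = ∑ a ∈ Λ, ε a • a := by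
  classical
  have hlog : 0 ≤ 8 * Real.log (Fintype.card G / T.card) := by
    have hTpos : (0 : ℝ) < T.card := by exact_mod_cast hT.card_pos
    have : (1 : ℝ) ≤ Fintype.card G / T.card := by
      rw [one_le_div hTpos]
      exact_mod_cast card_le_univ T
    have := Real.log_nonneg this
    linarith
  obtain ⟨s', hs', hcard, hsub⟩ := Finset.exists_subset_addSpan_card_le_of_forall_addDissociated
    (s := univ.filter fun ψ : AddChar G ℂ => (T.card : ℝ) / 2 ≤ ‖∑ x ∈ T, ψ x‖)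
    (d := ⌊8 * Real.log (Fintype.card G / T.card)⌋₊) (by
      intro s' hs' hdis
      apply Nat.le_floor
      apply chang T hT s' hdis
      intro ψ hψ
      exact (mem_filter.1 (hs' hψ)).2)
  refine ⟨s', ?_, ?_⟩
  · exact (Nat.cast_le.2 hcard).trans (Nat.floor_le hlog)
  · intro ψ hψ
    have := hsub (mem_filter.2 ⟨mem_univ _, hψ⟩)
    rw [mem_addSpan] at this
    obtain ⟨ε, hε, he⟩ := this
    refine ⟨ε, ?_, he.symm⟩
    intro a
    rcases hε a with h | h | h <;> rw [h] <;> simp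

end Pool.Agent.K4H60.BZ
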