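import Mathlib

/-!
# A de la Vallée Poussin kernel on a set of characters
-/

set_option autoImplicit false
set_option linter.unusedSectionVars false

namespace Pool.Agent.K4H60.BZ

open Finset
open scoped Pointwise BigOperators ComplexConjugate

variable {G : Type*} [AddCommGroup G] [Fintype G] [DecidableEq G]

theorem parseval (Q : Finset (AddChar G ℂ)) (c : AddChar G ℂ → ℂ) :
    ∑ z : G, ‖∑ q ∈ Q, c q * q z‖ ^ 2 = Fintype.card G * ∑ q ∈ Q, ‖c q‖ ^ 2 := by
  classical
  have h1 : (∑ z : G, ((‖∑ q ∈ Q, c q * q z‖ ^ 2 : ℝ) : ℂ)) = ((Fintype.card G * ∑ q ∈ Q, ‖c q‖ ^ 2 : ℝ) : ℂ) := by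
    have e1 : ∀ z : G, ((‖∑ q ∈ Q, c q * q z‖ ^ 2 : ℝ) : ℂ) =
        ∑ q ∈ Q, ∑ q' ∈ Q, c q * conj (c q') * (q - q') z := by
      intro z
      have : ((‖∑ q ∈ Q, c q * q z‖ ^ 2 : ℝ) : ℂ) = (∑ q ∈ Q, c q * q z) * conj (∑ q ∈ Q, c q * q z) := by
        rw [Complex.mul_conj, Complex.normSq_eq_norm_sq]
      rw [this, map_sum, sum_mul_sum]
      apply sum_congr rfl
      intro q _
      apply sum_congr rfl
      intro q' _
      rw [map_mul, AddChar.sub_apply, AddChar.map_neg_eq_conj]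
      ring
    simp_rw [e1]
    rw [sum_comm]
    have e2 : ∀ q ∈ Q, ∑ z : G, ∑ q' ∈ Q, c q * conj (c q') * (q - q') z = (Fintype.card G : ℂ) * (‖c q‖ ^ 2 : ℝ) := by
      intro q hq
      rw [sum_comm]
      have e3 : ∀ q' ∈ Q, ∑ z : G, c q * conj (c q') * (q - q') z =
          if q' = q then (Fintype.card G : ℂ) * (‖c q‖ ^ 2 : ℝ) else 0 := by
        intro q' _
        rw [← mul_sum, AddChar.sum_eq_ite]
        split_ifs with h h' h'
        · rw [h', Complex.mul_conj, Complex.normSq_eq_norm_sq]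
          push_cast
          ring
        · exact absurd (sub_eq_zero.1 h).symm h'
        · exact absurd (sub_eq_zero.2 h'.symm) h
        · rw [mul_zero]
      rw [sum_congr rfl e3, sum_ite_eq', if_pos hq]
    rw [sum_congr rfl e2, ← mul_sum]
    push_cast
    rfl
  exact_mod_cast h1

/-- Cauchy-Schwarz in the form used below. -/
theorem cs_aux (f g : G → ℝ) (a b B : ℝ) (hB : 0 ≤ B) (hf : ∑ z, f z ^ 2 ≤ a) (hg : ∑ z, g z ^ 2 ≤ b)
    (ha : 0 ≤ a) (hab : a * b ≤ B ^ 2) : ∑ z, f z * g z ≤ B := by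
  have h1 := Finset.sum_mul_sq_le_sq_mul_sq univ f g
  have h2 : (∑ z, f z * g z) ^ 2 ≤ B ^ 2 := by
    refine h1.trans (le_trans ?_ hab)
    have : 0 ≤ ∑ z, g z ^ 2 := sum_nonneg fun z _ => sq_nonneg _
    gcongr
  exact (abs_le_of_sq_le_sq' h2 hB).2

theorem kernel (h : G → ℂ) (a : AddChar G ℂ → ℂ) (hh : ∀ x, h x = ∑ ψ, a ψ * ψ x) (hb : ∀ x, ‖h x‖ ≤ 1)
    (S : Set (AddChar G ℂ)) [DecidablePred (· ∈ S)] (Q Q' : Finset (AddChar G ℂ)) (hQ : Q.Nonempty)
    (hcard : Q'.card ≤ 2 * Q.card) (hS : ∀ ψ ∈ S, ∀ q ∈ Q, ψ + q ∈ Q') (x : G) (M : ℝ) (hM : 0 ≤ M)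
    (hQM : ∀ q ∈ Q, ‖q x - 1‖ ≤ M) (hQM' : ∀ q ∈ Q', ‖q x - 1‖ ≤ M) :
    ‖h x - h 0‖ ≤ 2 * ∑ ψ ∈ univ.filter (fun ψ => ψ ∉ S), ‖a ψ‖ + 3 * M := by
  classical
  have hGpos : (0 : ℝ) < Fintype.card G := by exact_mod_cast Fintype.card_pos
  have hQpos : (0 : ℝ) < Q.card := by exact_mod_cast hQ.card_pos
  obtain ⟨u, hu⟩ : ∃ u : G → ℂ, u = fun z => ∑ q ∈ Q', q z := ⟨_, rfl⟩
  obtain ⟨v, hv⟩ : ∃ v : G → ℂ, v = fun z => ∑ q ∈ Q, q z := ⟨_, rfl⟩
  obtain ⟨H, hH⟩ : ∃ H : G → ℂ, H = fun y => (1 / ((Fintype.card G : ℂ) * (Q.card : ℂ))) *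
    ∑ z, (u (y + z) * conj (v (y + z))) * h (-z) := ⟨_, rfl⟩
  obtain ⟨r, hr⟩ : ∃ r : AddChar G ℂ → ℕ, r = fun ψ => ((Q' ×ˢ Q).filter fun p => p.1 - p.2 = ψ).card := ⟨_, rfl⟩
  have hrle : ∀ ψ, r ψ ≤ Q.card := by
    intro ψ
    rw [hr]
    apply card_le_card_of_injOn (fun p => p.2)
    · intro p hp
      simp only [coe_filter, mem_product, Set.mem_ofPred_eq] at hp
      exact hp.1.2
    · intro p hp p' hp' hpp
      simp only [coe_filter, mem_product, Set.mem_ofPred_eq] at hp hp'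
      have h3 : p.2 = p'.2 := hpp
      apply Prod.ext _ h3
      have h4 := hp.2.trans hp'.2.symm
      rw [h3] at h4
      exact sub_left_injective h4
  have hrS : ∀ ψ ∈ S, r ψ = Q.card := by
    intro ψ hψ
    apply le_antisymm (hrle ψ)
    rw [hr]
    apply card_le_card_of_injOn (fun q => (ψ + q, q))
    · intro q hq
      simp only [coe_filter, mem_product, Set.mem_ofPred_eq]
      exact ⟨⟨hS ψ hψ q hq, hq⟩, by abel⟩
    · intro q _ q' _ hqq
      exact (Prod.ext_iff.1 hqq).2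
  -- the Fourier expansion of H
  have hHexp : ∀ y, H y = ∑ ψ, a ψ * ((r ψ : ℂ) / Q.card) * ψ y := by
    intro y
    have e1 : ∀ z, (u (y + z) * conj (v (y + z))) * h (-z) =
        ∑ p ∈ Q' ×ˢ Q, ∑ ψ, a ψ * (p.1 - p.2) y * ((p.1 - p.2) - ψ) z := by
      intro z
      rw [hu, hv, hh]
      simp only
      rw [map_sum, sum_mul_sum, ← sum_product', sum_mul_sum, ← sum_product' ]
      rw [sum_product]
      apply sum_congr rfl
      intro p _
      apply sum_congr rfl
      intro ψ _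
      simp only [AddChar.sub_apply, AddChar.map_neg_eq_conj, AddChar.map_add_eq_mul, map_mul]
      ring
    have e2 : ∀ p ∈ Q' ×ˢ Q, ∑ z, ∑ ψ, a ψ * (p.1 - p.2) y * ((p.1 - p.2) - ψ) z =
        (Fintype.card G : ℂ) * (a (p.1 - p.2) * (p.1 - p.2) y) := by
      intro p _
      rw [sum_comm]
      have e3 : ∀ ψ ∈ (univ : Finset (AddChar G ℂ)), ∑ z, a ψ * (p.1 - p.2) y * ((p.1 - p.2) - ψ) z =
          if ψ = p.1 - p.2 then (Fintype.card G : ℂ) * (a ψ * (p.1 - p.2) y) else 0 := by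
        intro ψ _
        rw [← mul_sum, AddChar.sum_eq_ite]
        split_ifs with h1 h2 h2
        · ring
        · exact absurd (sub_eq_zero.1 h1).symm h2
        · exact absurd (sub_eq_zero.2 h2.symm) h1
        · rw [mul_zero]
      rw [sum_congr rfl e3, sum_ite_eq', if_pos (mem_univ _)]
    have e4 : ∑ p ∈ Q' ×ˢ Q, (a (p.1 - p.2) * (p.1 - p.2) y) = ∑ ψ, (r ψ : ℂ) * (a ψ * ψ y) := by
      rw [← sum_fiberwise_of_maps_to (s := Q' ×ˢ Q) (t := univ) (g := fun p => p.1 - p.2) (fun p _ => mem_univ _)]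
      apply sum_congr rfl
      intro ψ _
      rw [hr]
      simp only
      rw [← nsmul_eq_mul, ← sum_const]
      apply sum_congr rfl
      intro p hp
      rw [mem_filter] at hp
      rw [hp.2]
    rw [hH]
    simp only
    simp_rw [e1]
    rw [sum_comm, sum_congr rfl e2, ← mul_sum, e4, mul_sum, mul_sum]
    apply sum_congr rfl
    intro ψ _
    have hG' : (Fintype.card G : ℂ) ≠ 0 := by exact_mod_cast hGpos.ne'
    have hQ' : (Q.card : ℂ) ≠ 0 := by exact_mod_cast hQpos.ne'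
    field_simp
  have hclose : ∀ y, ‖h y - H y‖ ≤ ∑ ψ ∈ univ.filter (fun ψ => ψ ∉ S), ‖a ψ‖ := by
    intro y
    rw [hh, hHexp, ← sum_sub_distrib]
    refine (norm_sum_le _ _).trans ?_
    rw [sum_filter]
    apply sum_le_sum
    intro ψ _
    have e1 : a ψ * ψ y - a ψ * ((r ψ : ℂ) / Q.card) * ψ y = a ψ * (((1 - (r ψ : ℝ) / Q.card : ℝ)) : ℂ) * ψ y := by
      push_cast
      ring
    rw [e1, norm_mul, norm_mul, AddChar.norm_apply, mul_one, Complex.norm_real, Real.norm_eq_abs]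
    by_cases hψ : ψ ∈ S
    · rw [if_neg (not_not.2 hψ), hrS ψ hψ, div_self hQpos.ne', sub_self, abs_zero, mul_zero]
    · rw [if_pos hψ]
      have h1 : (r ψ : ℝ) / Q.card ≤ 1 := by
        rw [div_le_one hQpos]
        exact_mod_cast hrle ψ
      have h2 : 0 ≤ (r ψ : ℝ) / Q.card := by positivity
      have h3 : |1 - (r ψ : ℝ) / Q.card| ≤ 1 := by
        rw [abs_le]
        constructor <;> linarith
      calc _ ≤ ‖a ψ‖ * 1 := by gcongr
        _ = _ := mul_one _
  -- the change of H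
  have hcard' : (Q'.card : ℝ) ≤ 2 * Q.card := by exact_mod_cast hcard
  have hdiff : ‖H x - H 0‖ ≤ 3 * M := by
    have e1 : H x - H 0 = (1 / ((Fintype.card G : ℂ) * (Q.card : ℂ))) *
        ∑ z, (u (x + z) * conj (v (x + z)) - u z * conj (v z)) * h (-z) := by
      rw [hH]
      simp only [zero_add]
      rw [← mul_sub, ← sum_sub_distrib]
      congr 1
      apply sum_congr rfl
      intro z _
      ring
    have e2 : ‖∑ z, (u (x + z) * conj (v (x + z)) - u z * conj (v z)) * h (-z)‖ ≤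
        ∑ z, ‖u (x + z) - u z‖ * ‖v (x + z)‖ + ∑ z, ‖u z‖ * ‖v (x + z) - v z‖ := by
      rw [← sum_add_distrib]
      refine (norm_sum_le _ _).trans (sum_le_sum fun z _ => ?_)
      rw [norm_mul]
      have e3 : u (x + z) * conj (v (x + z)) - u z * conj (v z) =
          (u (x + z) - u z) * conj (v (x + z)) + u z * conj (v (x + z) - v z) := by
        rw [map_sub]; ring
      calc ‖u (x + z) * conj (v (x + z)) - u z * conj (v z)‖ * ‖h (-z)‖
          ≤ ‖u (x + z) * conj (v (x + z)) - u z * conj (v z)‖ * 1 := by gcongr; exact hb _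
        _ = ‖u (x + z) * conj (v (x + z)) - u z * conj (v z)‖ := mul_one _
        _ ≤ _ := by
          rw [e3]
          refine (norm_add_le _ _).trans ?_
          rw [norm_mul, norm_mul, RCLike.norm_conj, RCLike.norm_conj]
    have pu : ∑ z, ‖u z‖ ^ 2 ≤ Fintype.card G * Q'.card := by
      have := parseval Q' (fun _ => 1)
      simp only [one_mul, norm_one, one_pow, sum_const, nsmul_eq_mul, mul_one] at this
      rw [hu]
      exact this.le
    have pv : ∑ z, ‖v (x + z)‖ ^ 2 ≤ Fintype.card G * Q.card := by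
      have := parseval Q (fun _ => 1)
      simp only [one_mul, norm_one, one_pow, sum_const, nsmul_eq_mul, mul_one] at this
      rw [hv]
      refine le_trans (le_of_eq ?_) this.le
      exact Equiv.sum_comp (Equiv.addLeft x) (fun z => ‖∑ q ∈ Q, q z‖ ^ 2)
    have pdu : ∑ z, ‖u (x + z) - u z‖ ^ 2 ≤ Fintype.card G * (Q'.card * M ^ 2) := by
      have := parseval Q' (fun q => q x - 1)
      have e4 : ∀ z, u (x + z) - u z = ∑ q ∈ Q', (q x - 1) * q z := by
        intro z
        rw [hu]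
        simp only
        rw [← sum_sub_distrib]
        apply sum_congr rfl
        intro q _
        rw [AddChar.map_add_eq_mul]
        ring
      simp_rw [e4]
      rw [this]
      gcongr
      rw [← nsmul_eq_mul, ← sum_const]
      apply sum_le_sum
      intro q hq
      have := hQM' q hq
      gcongr
    have pdv : ∑ z, ‖v (x + z) - v z‖ ^ 2 ≤ Fintype.card G * (Q.card * M ^ 2) := by
      have := parseval Q (fun q => q x - 1)
      have e4 : ∀ z, v (x + z) - v z = ∑ q ∈ Q, (q x - 1) * q z := by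
        intro z
        rw [hv]
        simp only
        rw [← sum_sub_distrib]
        apply sum_congr rfl
        intro q _
        rw [AddChar.map_add_eq_mul]
        ring
      simp_rw [e4]
      rw [this]
      gcongr
      rw [← nsmul_eq_mul, ← sum_const]
      apply sum_le_sum
      intro q hq
      have := hQM q hq
      gcongr
    have c1 : ∑ z, ‖u (x + z) - u z‖ * ‖v (x + z)‖ ≤ 3 / 2 * (Fintype.card G * Q.card * M) := by
      refine cs_aux _ _ _ _ _ (by positivity) pdu pv (by positivity) ?_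
      calc (Fintype.card G : ℝ) * (Q'.card * M ^ 2) * (Fintype.card G * Q.card)
          ≤ (Fintype.card G : ℝ) * ((2 * Q.card) * M ^ 2) * (Fintype.card G * Q.card) := by gcongr
        _ = 2 * (Fintype.card G * Q.card * M) ^ 2 := by ring
        _ ≤ _ := by
          have := sq_nonneg ((Fintype.card G : ℝ) * Q.card * M)
          nlinarith
    have c2 : ∑ z, ‖u z‖ * ‖v (x + z) - v z‖ ≤ 3 / 2 * (Fintype.card G * Q.card * M) := by
      refine cs_aux _ _ _ _ _ (by positivity) pu pdv (by positivity) ?_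
      calc (Fintype.card G : ℝ) * Q'.card * (Fintype.card G * (Q.card * M ^ 2))
          ≤ (Fintype.card G : ℝ) * (2 * Q.card) * (Fintype.card G * (Q.card * M ^ 2)) := by gcongr
        _ = 2 * (Fintype.card G * Q.card * M) ^ 2 := by ring
        _ ≤ _ := by
          have := sq_nonneg ((Fintype.card G : ℝ) * Q.card * M)
          nlinarith
    rw [e1, norm_mul, norm_div, norm_one, norm_mul, Complex.norm_natCast, Complex.norm_natCast]
    rw [one_div_mul_eq_div, div_le_iff₀ (by positivity)]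
    refine e2.trans ((add_le_add c1 c2).trans (le_of_eq ?_))
    ring
  calc ‖h x - h 0‖ = ‖(h x - H x) - (h 0 - H 0) + (H x - H 0)‖ := by congr 1; ring
    _ ≤ ‖(h x - H x) - (h 0 - H 0)‖ + ‖H x - H 0‖ := norm_add_le _ _
    _ ≤ ‖h x - H x‖ + ‖h 0 - H 0‖ + ‖H x - H 0‖ := by gcongr; exact norm_sub_le _ _
    _ ≤ _ := by
      have := hclose x
      have := hclose 0
      linarith

end Pool.Agent.K4H60.BZ
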