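import Mathlib

/-!
# Integer combinations of characters with bounded coefficients
-/

set_option autoImplicit false
set_option linter.unusedSectionVars false

namespace Pool.Agent.K4H60.BZ

open Finset
open scoped Pointwise BigOperators ComplexConjugate

variable {G : Type*} [AddCommGroup G] [Fintype G] [DecidableEq G]

theorem norm_add_sub_one (ψ χ : AddChar G ℂ) (x : G) :
    ‖(ψ + χ) x - 1‖ ≤ ‖ψ x - 1‖ + ‖χ x - 1‖ := by
  rw [AddChar.add_apply]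
  have e1 : ψ x * χ x - 1 = ψ x * (χ x - 1) + (ψ x - 1) := by ring
  rw [e1]
  refine (norm_add_le _ _).trans ?_
  rw [norm_mul, AddChar.norm_apply, one_mul, add_comm]

theorem norm_neg_sub_one (ψ : AddChar G ℂ) (x : G) : ‖(-ψ) x - 1‖ = ‖ψ x - 1‖ := by
  rw [AddChar.neg_apply, AddChar.map_neg_eq_conj]
  have : conj (ψ x) - 1 = conj (ψ x - 1) := by rw [map_sub, map_one]
  rw [this, RCLike.norm_conj]

theorem norm_nsmul_sub_one (ψ : AddChar G ℂ) (x : G) (n : ℕ) : ‖(n • ψ) x - 1‖ ≤ n * ‖ψ x - 1‖ := by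
  induction n with
  | zero => simp
  | succ n ih =>
    rw [succ_nsmul]
    refine (norm_add_sub_one _ _ _).trans ?_
    rw [Nat.cast_succ]
    linarith

theorem norm_zsmul_sub_one (ψ : AddChar G ℂ) (x : G) (n : ℤ) : ‖(n • ψ) x - 1‖ ≤ |(n : ℝ)| * ‖ψ x - 1‖ := by
  obtain ⟨k, rfl | rfl⟩ := n.eq_nat_or_neg
  · rw [natCast_zsmul]
    refine (norm_nsmul_sub_one _ _ _).trans (le_of_eq ?_)
    rw [Int.cast_natCast, abs_of_nonneg (Nat.cast_nonneg k)]
  · rw [neg_zsmul, norm_neg_sub_one, natCast_zsmul]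
    refine (norm_nsmul_sub_one _ _ _).trans (le_of_eq ?_)
    rw [Int.cast_neg, Int.cast_natCast, abs_neg, abs_of_nonneg (Nat.cast_nonneg k)]

theorem norm_sum_sub_one {ι : Type*} (s : Finset ι) (f : ι → AddChar G ℂ) (x : G) :
    ‖(∑ i ∈ s, f i) x - 1‖ ≤ ∑ i ∈ s, ‖f i x - 1‖ := by
  classical
  induction s using Finset.induction_on with
  | empty => simp
  | insert a s ha ih =>
    rw [sum_insert ha, sum_insert ha]
    refine (norm_add_sub_one _ _ _).trans ?_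
    gcongr

open Classical in
/-- integer combinations with coefficients at most `t` -/
noncomputable def QQ (Λ : Finset (AddChar G ℂ)) (t : ℕ) : Finset (AddChar G ℂ) :=
  (Fintype.piFinset (fun _ : Λ => Finset.Icc (-(t : ℤ)) t)).image
    (fun n => ∑ a : Λ, n a • (a : AddChar G ℂ))

theorem card_QQ_le (Λ : Finset (AddChar G ℂ)) (t : ℕ) : (QQ Λ t).card ≤ (2 * t + 1) ^ Λ.card := by
  classical
  unfold QQ
  refine card_image_le.trans ?_
  rw [Fintype.card_piFinset, prod_const, card_univ, Fintype.card_coe, Int.card_Icc]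
  have : ((t : ℤ) + 1 - -(t : ℤ)).toNat = 2 * t + 1 := by omega
  rw [this]

theorem QQ_nonempty (Λ : Finset (AddChar G ℂ)) (t : ℕ) : (QQ Λ t).Nonempty := by
  classical
  unfold QQ
  rw [image_nonempty, Fintype.piFinset_nonempty]
  intro _
  exact ⟨0, by rw [mem_Icc]; omega⟩

theorem add_mem_QQ (Λ : Finset (AddChar G ℂ)) (t : ℕ) (ε : AddChar G ℂ → ℤ) (hε : ∀ a, |ε a| ≤ 1)
    (q : AddChar G ℂ) (hq : q ∈ QQ Λ t) : (∑ a ∈ Λ, ε a • a) + q ∈ QQ Λ (t + 1) := by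
  classical
  unfold QQ at hq ⊢
  rw [mem_image] at hq ⊢
  obtain ⟨n, hn, rfl⟩ := hq
  rw [Fintype.mem_piFinset] at hn
  refine ⟨fun a => ε a + n a, ?_, ?_⟩
  · rw [Fintype.mem_piFinset]
    intro a
    have h1 := hn a
    have h2 := abs_le.1 (hε a)
    rw [mem_Icc] at h1 ⊢
    push_cast
    omega
  · simp only [add_zsmul]
    rw [sum_add_distrib]
    congr 1
    exact sum_coe_sort Λ (fun a => ε a • a)

theorem QQ_bound (Λ : Finset (AddChar G ℂ)) (t : ℕ) (x : G) (δ : ℝ) (hδ : 0 ≤ δ)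
    (hx : ∀ ψ ∈ Λ, ‖ψ x - 1‖ ≤ δ) (q : AddChar G ℂ) (hq : q ∈ QQ Λ t) : ‖q x - 1‖ ≤ Λ.card * (t * δ) := by
  classical
  unfold QQ at hq
  rw [mem_image] at hq
  obtain ⟨n, hn, rfl⟩ := hq
  rw [Fintype.mem_piFinset] at hn
  refine (norm_sum_sub_one _ _ _).trans ?_
  have : (Λ.card : ℝ) * (t * δ) = ∑ a : Λ, (t * δ) := by
    rw [sum_const, card_univ, Fintype.card_coe, nsmul_eq_mul]
  rw [this]
  apply sum_le_sum
  intro a _
  refine (norm_zsmul_sub_one _ _ _).trans ?_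
  have h1 := hn a
  rw [mem_Icc, ← abs_le] at h1
  have h2 : |((n a : ℤ) : ℝ)| ≤ t := by exact_mod_cast h1
  have h3 := hx a a.2
  gcongr

/-- growth must slow down before `8 (d + 1) ^ 2` -/
theorem exists_slow (Λ : Finset (AddChar G ℂ)) :
    ∃ t ≤ 8 * (Λ.card + 1) ^ 2, (QQ Λ (t + 1)).card ≤ 2 * (QQ Λ t).card := by
  by_contra hcon
  push Not at hcon
  obtain ⟨d, hd⟩ : ∃ d : ℕ, d = Λ.card := ⟨_, rfl⟩
  rw [← hd] at hcon
  have h1 : ∀ t ≤ 8 * (d + 1) ^ 2 + 1, 2 ^ t ≤ (QQ Λ t).card := by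
    intro t
    induction t with
    | zero =>
      intro _
      exact (QQ_nonempty Λ 0).card_pos
    | succ t ih =>
      intro ht
      have h2 := ih (by omega)
      have h3 := hcon t (by omega)
      rw [pow_succ]
      omega
  have h2 := (h1 _ le_rfl).trans (card_QQ_le Λ _)
  rw [← hd] at h2
  have h3 : 2 * (8 * (d + 1) ^ 2 + 1) + 1 ≤ 2 ^ (8 * (d + 1)) := by
    have e1 : d + 1 ≤ 2 ^ (d + 1) := Nat.lt_two_pow_self.le
    have e2 : 2 ^ (8 * (d + 1)) = (2 ^ (d + 1)) ^ 2 * (2 ^ (d + 1)) ^ 6 := by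
      rw [← pow_add, ← pow_mul]
      congr 1
      ring
    have e3 : 2 ≤ 2 ^ (d + 1) := by
      calc 2 = 2 ^ 1 := rfl
        _ ≤ 2 ^ (d + 1) := Nat.pow_le_pow_right (by norm_num) (by omega)
    have e4 : 64 ≤ (2 ^ (d + 1)) ^ 6 := by
      calc 64 = 2 ^ 6 := rfl
        _ ≤ (2 ^ (d + 1)) ^ 6 := Nat.pow_le_pow_left e3 6
    rw [e2]
    have e5 : (d + 1) ^ 2 ≤ (2 ^ (d + 1)) ^ 2 := Nat.pow_le_pow_left e1 2
    calc 2 * (8 * (d + 1) ^ 2 + 1) + 1 ≤ (d + 1) ^ 2 * 64 := by nlinarith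
      _ ≤ (2 ^ (d + 1)) ^ 2 * (2 ^ (d + 1)) ^ 6 := Nat.mul_le_mul e5 e4
  have h4 : 2 ^ (8 * (d + 1) ^ 2 + 1) ≤ 2 ^ (8 * (d + 1) * d) := by
    calc _ ≤ (2 * (8 * (d + 1) ^ 2 + 1) + 1) ^ d := h2
      _ ≤ (2 ^ (8 * (d + 1))) ^ d := Nat.pow_le_pow_left h3 d
      _ = _ := by rw [← pow_mul]
  have h5 := (Nat.pow_le_pow_iff_right (by norm_num : 1 < 2)).1 h4
  nlinarith

end Pool.Agent.K4H60.BZ
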