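import Pool.Agent.K4H60.BZ.Alm
import Pool.Agent.K4H60.BZ.Chang
import Pool.Agent.K4H60.BZ.Kernel
import Pool.Agent.K4H60.BZ.Span

/-!
# Bohr sets in `2A - 2A` for sets of small doubling in a finite abelian group
-/

set_option autoImplicit false
set_option linter.unusedSectionVars false

namespace Pool.Agent.K4H60.BZ

open Finset
open scoped Pointwise BigOperators ComplexConjugate

variable {G : Type*} [AddCommGroup G] [Fintype G] [DecidableEq G]

/-- Fourier inversion for an indicator function. -/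
theorem ind_expand (D : Finset G) (z : G) :
    (ind D z : ℂ) = ∑ ψ : AddChar G ℂ, ((∑ w ∈ D, conj (ψ w)) / Fintype.card G) * ψ z := by
  classical
  have hG : (Fintype.card G : ℂ) ≠ 0 := by exact_mod_cast Fintype.card_ne_zero
  have e1 : ∀ ψ : AddChar G ℂ, ((∑ w ∈ D, conj (ψ w)) / Fintype.card G) * ψ z =
      (1 / (Fintype.card G : ℂ)) * ∑ w ∈ D, ψ (z - w) := by
    intro ψ
    rw [div_mul_eq_mul_div, sum_mul, one_div_mul_eq_div]
    congr 1
    apply sum_congr rfl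
    intro w _
    rw [sub_eq_add_neg, AddChar.map_add_eq_mul, AddChar.map_neg_eq_conj]
    ring
  simp_rw [e1]
  rw [← mul_sum, sum_comm]
  have e2 : ∀ w ∈ D, ∑ ψ : AddChar G ℂ, ψ (z - w) = if w = z then (Fintype.card G : ℂ) else 0 := by
    intro w _
    rw [AddChar.sum_apply_eq_ite]
    split_ifs with h1 h2 h2
    · rfl
    · exact absurd (sub_eq_zero.1 h1).symm h2
    · exact absurd (sub_eq_zero.2 h2.symm) h1
    · rfl
  rw [sum_congr rfl e2, sum_ite_eq']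
  unfold ind
  split_ifs
  · rw [one_div_mul_eq_div, div_self hG, Complex.ofReal_one]
  · rw [mul_zero, Complex.ofReal_zero]

/-- The sum of the squares of the Fourier coefficients of a set. -/
theorem parseval_set (A : Finset G) :
    ∑ ψ : AddChar G ℂ, ‖∑ a ∈ A, ψ a‖ ^ 2 = Fintype.card G * A.card := by
  classical
  have h1 : ((∑ ψ : AddChar G ℂ, ‖∑ a ∈ A, ψ a‖ ^ 2 : ℝ) : ℂ) = ((Fintype.card G * A.card : ℝ) : ℂ) := by
    push_cast
    have e1 : ∀ ψ : AddChar G ℂ, ((‖∑ a ∈ A, ψ a‖ : ℝ) : ℂ) ^ 2 = ∑ a ∈ A, ∑ b ∈ A, ψ (a - b) := by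
      intro ψ
      have : ((‖∑ a ∈ A, ψ a‖ : ℝ) : ℂ) ^ 2 = (∑ a ∈ A, ψ a) * conj (∑ a ∈ A, ψ a) := by
        rw [Complex.mul_conj, Complex.normSq_eq_norm_sq]
        push_cast
        rfl
      rw [this, map_sum, sum_mul_sum]
      apply sum_congr rfl
      intro a _
      apply sum_congr rfl
      intro b _
      rw [sub_eq_add_neg, AddChar.map_add_eq_mul, AddChar.map_neg_eq_conj]
    simp_rw [e1]
    rw [sum_comm]
    have e2 : ∀ a ∈ A, ∑ ψ : AddChar G ℂ, ∑ b ∈ A, ψ (a - b) = (Fintype.card G : ℂ) := by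
      intro a ha
      rw [sum_comm]
      have e3 : ∀ b ∈ A, ∑ ψ : AddChar G ℂ, ψ (a - b) = if b = a then (Fintype.card G : ℂ) else 0 := by
        intro b _
        rw [AddChar.sum_apply_eq_ite]
        split_ifs with h1 h2 h2
        · rfl
        · exact absurd (sub_eq_zero.1 h1).symm h2
        · exact absurd (sub_eq_zero.2 h2.symm) h1
        · rfl
      rw [sum_congr rfl e3, sum_ite_eq', if_pos ha]
    rw [sum_congr rfl e2, sum_const, nsmul_eq_mul, mul_comm]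
  exact_mod_cast h1

theorem char_sum {ι : Type*} (s : Finset ι) (f : ι → G) (ψ : AddChar G ℂ) :
    ψ (∑ i ∈ s, f i) = ∏ i ∈ s, ψ (f i) := by
  classical
  induction s using Finset.induction_on with
  | empty => simp
  | insert a s ha ih => rw [sum_insert ha, prod_insert ha, AddChar.map_add_eq_mul, ih]

/-- sums over tuples of characters -/
theorem sum_tuples (T : Finset G) (m : ℕ) (ψ : AddChar G ℂ) :
    ∑ s ∈ Fintype.piFinset (fun _ : Fin m => T), ∑ s' ∈ Fintype.piFinset (fun _ : Fin m => T),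
      ψ (∑ i, (s i - s' i)) = ((‖∑ t ∈ T, ψ t‖ ^ 2 : ℝ) : ℂ) ^ m := by
  have e1 : ∀ s s' : Fin m → G, ψ (∑ i, (s i - s' i)) = (∏ i, ψ (s i)) * ∏ i, conj (ψ (s' i)) := by
    intro s s'
    rw [char_sum, ← prod_mul_distrib]
    apply prod_congr rfl
    intro i _
    rw [sub_eq_add_neg, AddChar.map_add_eq_mul, AddChar.map_neg_eq_conj]
  simp_rw [e1]
  simp_rw [← mul_sum]
  rw [← sum_mul, ← Finset.prod_univ_sum (fun _ : Fin m => T) (fun _ a => ψ a),
    ← Finset.prod_univ_sum (fun _ : Fin m => T) (fun _ a => conj (ψ a)), prod_const, prod_const,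
    card_univ, Fintype.card_fin, ← mul_pow]
  congr 1
  rw [← map_sum (starRingEnd ℂ), Complex.mul_conj, Complex.normSq_eq_norm_sq]

theorem core (A T : Finset G) (hA : A.Nonempty) (hT : T.Nonempty) (m : ℕ)
    (hm : 32 * ((A - A).card : ℝ) ≤ 4 ^ m * A.card)
    (hAP : ∀ s s' : Fin m → G, (∀ i, s i ∈ T) → (∀ i, s' i ∈ T) →
        3 / 4 * (A.card : ℝ) ^ 2 ≤ ∑ a ∈ A, ∑ b ∈ A, ind (A - A) (a - b + ∑ i, (s i - s' i))) :
    ∃ Λ : Finset (AddChar G ℂ), (Λ.card : ℝ) ≤ 8 * Real.log (Fintype.card G / T.card) ∧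
      ∀ x : G, (∀ ψ ∈ Λ, ‖ψ x - 1‖ ≤ 1 / (216 * (Λ.card + 1) ^ 3)) →
        ∃ a₁ ∈ A, ∃ a₂ ∈ A, ∃ a₃ ∈ A, ∃ a₄ ∈ A, x = a₁ + a₂ - a₃ - a₄ := by
  classical
  have hApos : (0 : ℝ) < A.card := by exact_mod_cast hA.card_pos
  have hTpos : (0 : ℝ) < T.card := by exact_mod_cast hT.card_pos
  have hGpos : (0 : ℝ) < Fintype.card G := by exact_mod_cast Fintype.card_pos
  obtain ⟨Λ, hΛ, hspan⟩ := spec_span T hT
  refine ⟨Λ, hΛ, ?_⟩
  intro x hx
  obtain ⟨P, hP⟩ : ∃ P : Finset (Fin m → G), P = Fintype.piFinset (fun _ : Fin m => T) := ⟨_, rfl⟩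
  have hPcard : (P.card : ℝ) = (T.card : ℝ) ^ m := by
    rw [hP, Fintype.card_piFinset, prod_const, card_univ, Fintype.card_fin]
    push_cast
    rfl
  have hmemP : ∀ s, s ∈ P ↔ ∀ i, s i ∈ T := by
    intro s
    rw [hP, Fintype.mem_piFinset]
  -- the index set
  obtain ⟨I, hI⟩ : ∃ I : Finset ((G × G) × ((Fin m → G) × (Fin m → G))), I = (A ×ˢ A) ×ˢ (P ×ˢ P) := ⟨_, rfl⟩
  have hIcard : (I.card : ℝ) = (A.card : ℝ) ^ 2 * ((T.card : ℝ) ^ m) ^ 2 := by
    rw [hI, card_product, card_product, card_product]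
    push_cast
    rw [hPcard]
    ring
  have hIpos : (0 : ℝ) < I.card := by rw [hIcard]; positivity
  obtain ⟨pt, hpt⟩ : ∃ pt : ((G × G) × ((Fin m → G) × (Fin m → G))) → G,
    pt = fun j => j.1.1 - j.1.2 + ∑ i, (j.2.1 i - j.2.2 i) := ⟨_, rfl⟩
  obtain ⟨hR, hhR⟩ : ∃ hR : G → ℝ, hR = fun y => (∑ j ∈ I, ind (A - A) (pt j + y)) / I.card := ⟨_, rfl⟩
  have hR0 : ∀ y, 0 ≤ hR y := by
    intro y
    rw [hhR]
    exact div_nonneg (sum_nonneg fun j _ => ind_nonneg _ _) (Nat.cast_nonneg _)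
  have hR1 : ∀ y, hR y ≤ 1 := by
    intro y
    rw [hhR]
    apply div_le_one_of_le₀ _ (Nat.cast_nonneg _)
    calc _ ≤ ∑ j ∈ I, (1 : ℝ) := sum_le_sum fun j _ => ind_le_one _ _
      _ = _ := by simp
  have hRzero : 3 / 4 ≤ hR 0 := by
    rw [hhR]
    simp only
    rw [le_div_iff₀ hIpos]
    have e1 : ∑ j ∈ I, ind (A - A) (pt j + 0) =
        ∑ p ∈ P ×ˢ P, ∑ a ∈ A, ∑ b ∈ A, ind (A - A) (a - b + ∑ i, (p.1 i - p.2 i)) := by
      rw [hI, sum_product_right]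
      apply sum_congr rfl
      intro p _
      rw [sum_product]
      apply sum_congr rfl
      intro a _
      apply sum_congr rfl
      intro b _
      rw [hpt, add_zero]
    rw [e1]
    calc 3 / 4 * (I.card : ℝ) = ∑ p ∈ P ×ˢ P, 3 / 4 * (A.card : ℝ) ^ 2 := by
          rw [sum_const, card_product, nsmul_eq_mul, hIcard]
          push_cast
          rw [hPcard]
          ring
      _ ≤ _ := by
          apply sum_le_sum
          intro p hp
          rw [mem_product] at hp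
          exact hAP p.1 p.2 ((hmemP _).1 hp.1) ((hmemP _).1 hp.2)
  -- Fourier coefficients
  obtain ⟨co, hco⟩ : ∃ co : AddChar G ℂ → ℂ, co = fun ψ => ((∑ w ∈ (A - A), conj (ψ w)) / Fintype.card G) *
    (((‖∑ a ∈ A, ψ a‖ ^ 2 : ℝ) : ℂ) * ((‖∑ t ∈ T, ψ t‖ ^ 2 : ℝ) : ℂ) ^ m) / (I.card : ℂ) := ⟨_, rfl⟩
  have hexp : ∀ y, ((hR y : ℝ) : ℂ) = ∑ ψ, co ψ * ψ y := by
    intro y
    rw [hhR, hco]
    push_cast
    simp_rw [ind_expand]
    rw [sum_comm, sum_div]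
    apply sum_congr rfl
    intro ψ _
    have e1 : ∀ j ∈ I, ((∑ w ∈ (A - A), conj (ψ w)) / Fintype.card G) * ψ (pt j + y) =
        ((∑ w ∈ (A - A), conj (ψ w)) / Fintype.card G) * ψ y * (ψ (j.1.1 - j.1.2) * ψ (∑ i, (j.2.1 i - j.2.2 i))) := by
      intro j _
      rw [hpt, AddChar.map_add_eq_mul, AddChar.map_add_eq_mul]
      ring
    rw [sum_congr rfl e1, ← mul_sum]
    have e2 : ∑ j ∈ I, (ψ (j.1.1 - j.1.2) * ψ (∑ i, (j.2.1 i - j.2.2 i))) =
        (((‖∑ a ∈ A, ψ a‖ ^ 2 : ℝ) : ℂ) * ((‖∑ t ∈ T, ψ t‖ ^ 2 : ℝ) : ℂ) ^ m) := by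
      rw [hI, sum_product]
      have e3 := sum_mul_sum (A ×ˢ A) (P ×ˢ P) (fun p : G × G => ψ (p.1 - p.2))
        (fun p : (Fin m → G) × (Fin m → G) => ψ (∑ i, (p.1 i - p.2 i)))
      refine e3.symm.trans ?_
      congr 1
      · rw [sum_product]
        have : ((‖∑ a ∈ A, ψ a‖ ^ 2 : ℝ) : ℂ) = (∑ a ∈ A, ψ a) * conj (∑ a ∈ A, ψ a) := by
          rw [Complex.mul_conj, Complex.normSq_eq_norm_sq]
        rw [this, map_sum, sum_mul_sum]
        apply sum_congr rfl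
        intro a _
        apply sum_congr rfl
        intro b _
        rw [sub_eq_add_neg, AddChar.map_add_eq_mul, AddChar.map_neg_eq_conj]
      · rw [← sum_tuples, sum_product, hP]
    rw [e2]
    push_cast
    ring
  -- the set S
  obtain ⟨S, hS⟩ : ∃ S : Set (AddChar G ℂ), S = {ψ | (T.card : ℝ) / 2 ≤ ‖∑ t ∈ T, ψ t‖} := ⟨_, rfl⟩
  have hmass : ∑ ψ ∈ univ.filter (fun ψ => ψ ∉ S), ‖co ψ‖ ≤ 1 / 32 := by
    have e1 : ∀ ψ ∈ univ.filter (fun ψ => ψ ∉ S), ‖co ψ‖ ≤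
        (((A - A).card : ℝ) / (Fintype.card G * (A.card : ℝ) ^ 2 * 4 ^ m)) * ‖∑ a ∈ A, ψ a‖ ^ 2 := by
      intro ψ hψ
      rw [mem_filter, hS] at hψ
      have hψ2 : ‖∑ t ∈ T, ψ t‖ ≤ (T.card : ℝ) / 2 := by
        by_contra hcon
        exact hψ.2 (le_of_lt (not_le.1 hcon))
      have f1 : ‖∑ w ∈ (A - A), conj (ψ w)‖ ≤ ((A - A).card : ℝ) := by
        refine (norm_sum_le _ _).trans (le_of_eq ?_)
        simp [AddChar.norm_apply]
      have f2 : (‖∑ t ∈ T, ψ t‖ ^ 2) ^ m ≤ ((T.card : ℝ) ^ m) ^ 2 / 4 ^ m := by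
        calc (‖∑ t ∈ T, ψ t‖ ^ 2) ^ m ≤ (((T.card : ℝ) / 2) ^ 2) ^ m := by gcongr
          _ = _ := by
            rw [div_pow, div_pow, ← pow_mul, mul_comm 2 m, pow_mul]
            norm_num
      rw [hco]
      simp only [norm_div, norm_mul, norm_pow, Complex.norm_real, norm_norm, Complex.norm_natCast]
      rw [hIcard]
      calc ‖∑ w ∈ (A - A), conj (ψ w)‖ / (Fintype.card G : ℝ) * (‖∑ a ∈ A, ψ a‖ ^ 2 * (‖∑ t ∈ T, ψ t‖ ^ 2) ^ m) /
            ((A.card : ℝ) ^ 2 * ((T.card : ℝ) ^ m) ^ 2)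
          ≤ ((A - A).card : ℝ) / (Fintype.card G : ℝ) * (‖∑ a ∈ A, ψ a‖ ^ 2 * (((T.card : ℝ) ^ m) ^ 2 / 4 ^ m)) /
            ((A.card : ℝ) ^ 2 * ((T.card : ℝ) ^ m) ^ 2) := by gcongr
        _ = _ := by
          field_simp
    refine (sum_le_sum e1).trans ?_
    calc _ ≤ ∑ ψ : AddChar G ℂ, (((A - A).card : ℝ) / (Fintype.card G * (A.card : ℝ) ^ 2 * 4 ^ m)) * ‖∑ a ∈ A, ψ a‖ ^ 2 :=
          sum_le_sum_of_subset_of_nonneg (subset_univ _) fun ψ _ _ => by positivity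
      _ = ((A - A).card : ℝ) / (A.card * 4 ^ m) := by
          rw [← mul_sum, parseval_set]
          field_simp
      _ ≤ 1 / 32 := by
          rw [div_le_div_iff₀ (by positivity) (by norm_num)]
          linarith
  -- the kernel
  obtain ⟨t, ht, hslow⟩ := exists_slow Λ
  obtain ⟨δ, hδ⟩ : ∃ δ : ℝ, δ = 1 / (216 * ((Λ.card : ℝ) + 1) ^ 3) := ⟨_, rfl⟩
  rw [← hδ] at hx
  have hδ0 : 0 ≤ δ := by rw [hδ]; positivity
  have hbound : ∀ s ≤ t + 1, ∀ q ∈ QQ Λ s, ‖q x - 1‖ ≤ 1 / 24 := by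
    intro s hs q hq
    refine (QQ_bound Λ s x δ hδ0 hx q hq).trans ?_
    have h1 : (s : ℝ) ≤ 9 * ((Λ.card : ℝ) + 1) ^ 2 := by
      have : s ≤ 9 * (Λ.card + 1) ^ 2 := by
        have : 1 ≤ (Λ.card + 1) ^ 2 := Nat.one_le_pow _ _ (by omega)
        omega
      exact_mod_cast this
    have h2 : (Λ.card : ℝ) ≤ (Λ.card : ℝ) + 1 := by linarith
    calc (Λ.card : ℝ) * (s * δ) ≤ ((Λ.card : ℝ) + 1) * ((9 * ((Λ.card : ℝ) + 1) ^ 2) * δ) := by gcongr
      _ = 1 / 24 := by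
        rw [hδ]
        field_simp
        norm_num
  have hker := kernel (fun y => ((hR y : ℝ) : ℂ)) co hexp (by
      intro y
      rw [Complex.norm_real, Real.norm_eq_abs, abs_of_nonneg (hR0 y)]
      exact hR1 y) S (QQ Λ t) (QQ Λ (t + 1)) (QQ_nonempty Λ t) hslow (by
      intro ψ hψ q hq
      rw [hS] at hψ
      obtain ⟨ε, hε, he⟩ := hspan ψ hψ
      rw [he]
      exact add_mem_QQ Λ t ε hε q hq) x (1 / 24) (by norm_num)
      (fun q hq => hbound t (by omega) q hq) (fun q hq => hbound (t + 1) le_rfl q hq)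
  have hRx : 1 / 2 < hR x := by
    have e1 : ((hR x : ℝ) : ℂ) - ((hR 0 : ℝ) : ℂ) = ((hR x - hR 0 : ℝ) : ℂ) := by push_cast; rfl
    rw [e1, Complex.norm_real, Real.norm_eq_abs] at hker
    have h1 := abs_le.1 (hker.trans (add_le_add (mul_le_mul_of_nonneg_left hmass (by norm_num)) le_rfl))
    linarith [h1.1]
  -- conclusion
  have hfin : ∃ j ∈ I, pt j ∈ A - A ∧ pt j + x ∈ A - A := by
    by_contra hcon
    push Not at hcon
    have h1 : ∀ j ∈ I, ind (A - A) (pt j + 0) + ind (A - A) (pt j + x) ≤ 1 := by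
      intro j hj
      rw [add_zero]
      unfold ind
      by_cases h : pt j ∈ A - A
      · rw [if_pos h, if_neg (hcon j hj h)]
        norm_num
      · rw [if_neg h]
        split_ifs <;> norm_num
    have h2 : hR 0 + hR x ≤ 1 := by
      rw [hhR]
      simp only
      rw [← add_div, ← sum_add_distrib, div_le_one hIpos]
      calc _ ≤ ∑ j ∈ I, (1 : ℝ) := sum_le_sum h1
        _ = _ := by simp
    linarith
  obtain ⟨j, _, h1, h2⟩ := hfin
  rw [mem_sub] at h1 h2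
  obtain ⟨a, ha, b, hb, hab⟩ := h1
  obtain ⟨c, hc, d, hd, hcd⟩ := h2
  refine ⟨c, hc, b, hb, d, hd, a, ha, ?_⟩
  have : x = (pt j + x) - pt j := by abel
  rw [this, ← hcd, ← hab]
  abel

end Pool.Agent.K4H60.BZ
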