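import Mathlib

/-!
# Characters and frequencies of `ℤ/N`
-/

set_option autoImplicit false
set_option linter.unusedSectionVars false

namespace Pool.Agent.K4H60.BZ

open Finset

variable {N : ℕ} [NeZero N]

/-- distance to the nearest integer -/
noncomputable def nint (t : ℝ) : ℝ := |t - ((round t : ℤ) : ℝ)|

theorem nint_add_int (t : ℝ) (k : ℤ) : nint (t + k) = nint t := by
  unfold nint
  rw [round_add_intCast]
  push_cast
  congr 1
  ring

theorem nint_of_small (t : ℝ) (h : |t| < 1 / 2) : nint t = |t| := by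
  unfold nint
  have : round t = 0 := by
    rw [round_eq_zero_iff]
    rw [abs_lt] at h
    exact ⟨by linarith [h.1], h.2⟩
  rw [this]
  simp

/-- Going from a small radius to a large one. -/
theorem boost (t : ℝ) (R J : ℕ) (hR : 1 ≤ R) (h : ∀ i < J + 1, nint ((R : ℝ) ^ i * t) ≤ 1 / (4 * R)) :
    nint t ≤ 1 / (4 * (R : ℝ) ^ (J + 1)) := by
  have hR0 : (0 : ℝ) < R := by exact_mod_cast hR
  obtain ⟨τ, hτ⟩ : ∃ τ : ℝ, τ = t - round t := ⟨_, rfl⟩
  have hshift : ∀ j : ℕ, nint ((R : ℝ) ^ j * τ) = nint ((R : ℝ) ^ j * t) := by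
    intro j
    have : (R : ℝ) ^ j * τ = (R : ℝ) ^ j * t + ((-((R : ℤ) ^ j * round t) : ℤ) : ℝ) := by
      rw [hτ]; push_cast; ring
    rw [this, nint_add_int]
  have key : ∀ j < J + 1, |(R : ℝ) ^ j * τ| ≤ 1 / (4 * R) := by
    intro j
    induction j with
    | zero =>
      intro hj
      have h1 := h 0 hj
      rw [pow_zero, one_mul] at h1 ⊢
      rw [hτ]
      exact h1
    | succ j ih =>
      intro hj
      have h1 := ih (by omega)
      have h2 : |(R : ℝ) ^ (j + 1) * τ| ≤ 1 / 4 := by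
        have : (R : ℝ) ^ (j + 1) * τ = R * ((R : ℝ) ^ j * τ) := by ring
        rw [this, abs_mul, abs_of_pos hR0]
        calc (R : ℝ) * |(R : ℝ) ^ j * τ| ≤ R * (1 / (4 * R)) := by gcongr
          _ = 1 / 4 := by field_simp
      have h3 := h (j + 1) hj
      rw [← hshift, nint_of_small _ (by linarith)] at h3
      exact h3
  have h1 := key J (by omega)
  rw [abs_mul, abs_of_pos (by positivity)] at h1
  have h2 : nint t = |τ| := by rw [hτ]; rfl
  rw [h2, le_div_iff₀ (by positivity)]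
  have h3 : |τ| * (4 * (R : ℝ) ^ (J + 1)) = 4 * R * ((R : ℝ) ^ J * |τ|) := by ring
  rw [h3]
  calc 4 * (R : ℝ) * ((R : ℝ) ^ J * |τ|) ≤ 4 * R * (1 / (4 * R)) := by gcongr
    _ = 1 := by field_simp

theorem exists_freq (ψ : AddChar (ZMod N) ℂ) :
    ∃ γ : ZMod N, ∀ x : ZMod N, ψ x = Complex.exp (2 * Real.pi * Complex.I * ((γ * x).val / N)) := by
  classical
  have hinj := AddChar.to_mulShift_inj_of_isPrimitive (ZMod.isPrimitive_stdAddChar N)
  have hbij : Function.Bijective (AddChar.mulShift (ZMod.stdAddChar (N := N))) := by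
    rw [Fintype.bijective_iff_injective_and_card]
    exact ⟨hinj, AddChar.card_eq.symm⟩
  obtain ⟨γ, hγ⟩ := hbij.2 ψ
  refine ⟨γ, fun x => ?_⟩
  rw [← hγ, AddChar.mulShift_apply, ZMod.stdAddChar_apply, ZMod.toCircle_apply]
  congr 1
  ring

theorem norm_exp_sub_one_le (t : ℝ) : ‖Complex.exp (2 * Real.pi * Complex.I * t) - 1‖ ≤ 2 * Real.pi * nint t := by
  have e1 : Complex.exp (2 * Real.pi * Complex.I * t) = Complex.exp (Complex.I * ((2 * Real.pi * (t - round t) : ℝ) : ℂ)) := by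
    rw [Complex.exp_eq_exp_iff_exists_int]
    refine ⟨round t, ?_⟩
    push_cast
    ring
  rw [e1]
  refine Real.norm_exp_I_mul_ofReal_sub_one_le.trans ?_
  unfold nint
  rw [Real.norm_eq_abs, abs_mul, abs_of_pos (by positivity)]

/-- A small Bohr set of characters contains a Bohr set of frequencies of radius `1/(4R)`. -/
theorem transfer (Λ : Finset (AddChar (ZMod N) ℂ)) (R J : ℕ) (hR : 1 ≤ R) :
    ∃ Γ : Finset (ZMod N), Γ.card ≤ (J + 1) * Λ.card ∧ ∀ x : ZMod N,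
      (∀ γ ∈ Γ, nint (((γ * x).val : ℝ) / N) ≤ 1 / (4 * R)) →
      ∀ ψ ∈ Λ, ‖ψ x - 1‖ ≤ 2 * Real.pi * (1 / (4 * (R : ℝ) ^ (J + 1))) := by
  classical
  choose fr hfr using exists_freq (N := N)
  refine ⟨(Λ ×ˢ range (J + 1)).image (fun p => ((R ^ p.2 : ℕ) : ZMod N) * fr p.1), ?_, ?_⟩
  · refine card_image_le.trans ?_
    rw [card_product, card_range, mul_comm]
  intro x hx ψ hψ
  have hN : (N : ℝ) ≠ 0 := Nat.cast_ne_zero.mpr (NeZero.ne N)
  have h1 : ∀ i < J + 1, nint ((R : ℝ) ^ i * (((fr ψ * x).val : ℝ) / N)) ≤ 1 / (4 * R) := by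
    intro i hi
    have h2 := hx (((R ^ i : ℕ) : ZMod N) * fr ψ) (by
      rw [mem_image]
      exact ⟨(ψ, i), by rw [mem_product]; exact ⟨hψ, mem_range.2 hi⟩, rfl⟩)
    have h3 : (((R ^ i : ℕ) : ZMod N) * fr ψ * x) = (((R ^ i * (fr ψ * x).val : ℕ) : ℤ) : ZMod N) := by
      push_cast
      rw [ZMod.natCast_zmod_val]
      ring
    have h4 : (((((R ^ i : ℕ) : ZMod N) * fr ψ * x).val : ℤ)) = ((R ^ i * (fr ψ * x).val : ℕ) : ℤ) % N := by
      rw [h3, ZMod.val_intCast]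
    obtain ⟨k, hk⟩ : ∃ k : ℤ, k = ((R ^ i * (fr ψ * x).val : ℕ) : ℤ) / N := ⟨_, rfl⟩
    have h5 : (((((R ^ i : ℕ) : ZMod N) * fr ψ * x).val : ℤ)) = ((R ^ i * (fr ψ * x).val : ℕ) : ℤ) - N * k := by
      rw [h4, hk, Int.emod_def]
    have h6 : (((((R ^ i : ℕ) : ZMod N) * fr ψ * x).val : ℝ)) = (R : ℝ) ^ i * (fr ψ * x).val - N * k := by
      have := congrArg (fun z : ℤ => (z : ℝ)) h5
      push_cast at this
      simpa using this
    have h7 : (((((R ^ i : ℕ) : ZMod N) * fr ψ * x).val : ℝ)) / N + (k : ℤ) = (R : ℝ) ^ i * (((fr ψ * x).val : ℝ) / N) := by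
      rw [h6]
      field_simp
      ring
    rw [← h7, nint_add_int]
    exact h2
  have h2 := boost _ R J hR h1
  have h3 := hfr ψ x
  have h4 : ψ x = Complex.exp (2 * Real.pi * Complex.I * ((((fr ψ * x).val : ℝ) / N : ℝ) : ℂ)) := by
    rw [h3]
    push_cast
    rfl
  rw [h4]
  refine (norm_exp_sub_one_le _).trans ?_
  gcongr

end Pool.Agent.K4H60.BZ
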