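import Pool.Agent.K4H60.BZ.Core
import Pool.Agent.K4H60.BZ.ZN
import Pool.Agent.H217R3.AK.Bsg

/-!
# Bohr sets in `2A - 2A` in terms of the additive energy of `A`
-/

set_option autoImplicit false
set_option linter.unusedSectionVars false

namespace Pool.Agent.K4H60.BZ

open Finset
open scoped Pointwise

/-- The sampling lemma and `core` for a set with small difference set. -/
theorem small_diff {G : Type*} [AddCommGroup G] [Fintype G] [DecidableEq G] (B : Finset G) (hB : B.Nonempty)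
    (l : ℝ) (hl : 0 ≤ l) (hdiff : ((B - B).card : ℝ) ≤ Real.exp l * B.card) :
    ∃ Λ : Finset (AddChar G ℂ),
      (Λ.card : ℝ) ≤ 8 * (Real.log (Fintype.card G / B.card) + 1 + 96000 * (1 + l) ^ 4) ∧
      ∀ x : G, (∀ ψ ∈ Λ, ‖ψ x - 1‖ ≤ 1 / (216 * ((Λ.card : ℝ) + 1) ^ 3)) →
        ∃ a₁ ∈ B, ∃ a₂ ∈ B, ∃ a₃ ∈ B, ∃ a₄ ∈ B, x = a₁ + a₂ - a₃ - a₄ := by
  have hBpos : (0 : ℝ) < B.card := by exact_mod_cast hB.card_pos
  have hGpos : (0 : ℝ) < Fintype.card G := by exact_mod_cast Fintype.card_pos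
  have hexp := Real.exp_pos l
  -- Plünnecke
  obtain ⟨κ, hκ⟩ : ∃ κ : ℝ, κ = ((B - B).card : ℝ) / B.card := ⟨_, rfl⟩
  have hκ0 : 0 ≤ κ := by rw [hκ]; positivity
  have hκle : κ ≤ Real.exp l := by
    rw [hκ, div_le_iff₀ hBpos]
    exact hdiff
  have plu : ∀ m n : ℕ, ((m • B - n • B).card : ℝ) ≤ Real.exp l ^ (m + n) * B.card := by
    intro m n
    have h1 := Finset.pluennecke_ruzsa_inequality_nsmul_sub_nsmul_sub hB B m n
    have h2 : ((m • B - n • B).card : ℝ) ≤ κ ^ (m + n) * B.card := by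
      rw [hκ]
      have h3 := (NNRat.cast_le (K := ℝ)).2 h1
      push_cast at h3
      exact h3
    refine h2.trans ?_
    gcongr
  have p1 : ((B - B - B).card : ℝ) ≤ Real.exp l ^ 3 * B.card := by
    have := plu 1 2
    rw [one_nsmul, two_nsmul, ← sub_sub] at this
    exact this
  have p2 : ((B + B).card : ℝ) ≤ Real.exp l ^ 2 * B.card := by
    have := plu 2 0
    rw [two_nsmul, zero_nsmul, sub_zero] at this
    exact this
  -- parameters
  obtain ⟨q, hq⟩ : ∃ q : ℕ, q = ⌈2 + 3 * l⌉₊ := ⟨_, rfl⟩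
  obtain ⟨m, hm⟩ : ∃ m : ℕ, m = ⌈3 + l⌉₊ := ⟨_, rfl⟩
  have hq1 : 2 + 3 * l ≤ q := by rw [hq]; exact Nat.le_ceil _
  have hq2 : (q : ℝ) ≤ 3 * (1 + l) := by
    rw [hq]
    have := Nat.ceil_lt_add_one (show 0 ≤ 2 + 3 * l by positivity)
    linarith
  have hm1 : 3 + l ≤ m := by rw [hm]; exact Nat.le_ceil _
  have hm2 : (m : ℝ) ≤ 4 * (1 + l) := by
    rw [hm]
    have := Nat.ceil_lt_add_one (show 0 ≤ 3 + l by positivity)
    linarith
  have hq0 : 0 < q := by
    have : (0 : ℝ) < q := by linarith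
    exact_mod_cast this
  have hm0 : 0 < m := by
    have : (0 : ℝ) < m := by linarith
    exact_mod_cast this
  have c1 : 4 * ((B - B - B).card : ℝ) ≤ Real.exp q * B.card := by
    calc 4 * ((B - B - B).card : ℝ) ≤ 4 * (Real.exp l ^ 3 * B.card) := by gcongr
      _ = (4 * Real.exp (3 * l)) * B.card := by
        rw [← Real.exp_nat_mul]
        push_cast
        ring
      _ ≤ (Real.exp 2 * Real.exp (3 * l)) * B.card := by
        have : (4 : ℝ) ≤ Real.exp 2 := by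
          have h1 := Real.exp_one_gt_d9
          have h2 : Real.exp 2 = Real.exp 1 * Real.exp 1 := by
            rw [← Real.exp_add]; norm_num
          rw [h2]
          nlinarith
        gcongr
      _ ≤ Real.exp q * B.card := by
        rw [← Real.exp_add]
        gcongr
  have c2 : 32 * ((B - B).card : ℝ) ≤ 4 ^ m * B.card := by
    have e1 : (4 : ℝ) ^ m = Real.exp (m * Real.log 4) := by
      rw [mul_comm, Real.exp_mul, Real.exp_log (by norm_num), Real.rpow_natCast]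
    have e2 : (1 : ℝ) ≤ Real.log 4 := by
      rw [Real.le_log_iff_exp_le (by norm_num)]
      linarith [Real.exp_one_lt_d9]
    have e3 : 64 * Real.exp l ≤ (4 : ℝ) ^ m := by
      rw [e1]
      have e4 : (64 : ℝ) = Real.exp (3 * Real.log 4) := by
        rw [mul_comm, Real.exp_mul, Real.exp_log (by norm_num)]
        norm_num
      rw [e4, ← Real.exp_add]
      apply Real.exp_le_exp.2
      have : l ≤ l * Real.log 4 := le_mul_of_one_le_right hl e2
      have h5 : (3 + l) * Real.log 4 ≤ m * Real.log 4 := by gcongr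
      linarith
    calc 32 * ((B - B).card : ℝ) ≤ 32 * (Real.exp l * B.card) := by gcongr
      _ ≤ (64 * Real.exp l) * B.card := by nlinarith [mul_pos hexp hBpos]
      _ ≤ 4 ^ m * B.card := by gcongr
  obtain ⟨T, _, hTcard, hAP⟩ := samp_final B hB q m hq0 hm0 c1
  obtain ⟨n, hn⟩ : ∃ n : ℕ, n = 1000 * q * m ^ 2 := ⟨_, rfl⟩
  rw [← hn] at hTcard
  have hn2 : (n : ℝ) ≤ 48000 * (1 + l) ^ 3 := by
    rw [hn]
    push_cast
    calc 1000 * (q : ℝ) * (m : ℝ) ^ 2 ≤ 1000 * (3 * (1 + l)) * (4 * (1 + l)) ^ 2 := by gcongr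
      _ = _ := by ring
  have hT : T.Nonempty := by
    rw [nonempty_iff_ne_empty]
    rintro rfl
    rw [card_empty, Nat.cast_zero, mul_zero] at hTcard
    have : (0 : ℝ) < (B.card : ℝ) ^ (n + 1) := by positivity
    linarith
  have hTpos : (0 : ℝ) < T.card := by exact_mod_cast hT.card_pos
  have hTlow : (B.card : ℝ) ≤ 2 * Real.exp (2 * l * n) * T.card := by
    have h1 : (B.card : ℝ) ^ (n + 1) ≤ 2 * ((Real.exp l ^ 2 * B.card) ^ n) * T.card := by
      refine hTcard.trans ?_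
      gcongr
    have h2 : (B.card : ℝ) ^ n * B.card ≤ (B.card : ℝ) ^ n * (2 * Real.exp (2 * l * n) * T.card) := by
      calc (B.card : ℝ) ^ n * B.card = (B.card : ℝ) ^ (n + 1) := by rw [pow_succ]
        _ ≤ 2 * ((Real.exp l ^ 2 * B.card) ^ n) * T.card := h1
        _ = _ := by
          have : Real.exp (2 * l * n) = (Real.exp l ^ 2) ^ n := by
            rw [← Real.exp_nat_mul, ← Real.exp_nat_mul]
            congr 1
            push_cast
            ring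
          rw [this, mul_pow]
          ring
    exact le_of_mul_le_mul_left h2 (by positivity)
  obtain ⟨Λ, hΛ, hmain⟩ := core B T hB hT m c2 hAP
  refine ⟨Λ, ?_, hmain⟩
  refine hΛ.trans ?_
  have hlog : Real.log (Fintype.card G / T.card) ≤ Real.log (Fintype.card G / B.card) + 1 + 96000 * (1 + l) ^ 4 := by
    have h1 : (Fintype.card G : ℝ) / T.card ≤ (Fintype.card G / B.card) * (2 * Real.exp (2 * l * n)) := by
      rw [div_mul_eq_mul_div, div_le_div_iff₀ hTpos hBpos]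
      calc (Fintype.card G : ℝ) * B.card ≤ Fintype.card G * (2 * Real.exp (2 * l * n) * T.card) := by gcongr
        _ = _ := by ring
    have h2 := Real.log_le_log (by positivity) h1
    rw [Real.log_mul (by positivity) (by positivity), Real.log_mul (by norm_num) (Real.exp_pos _).ne',
      Real.log_exp] at h2
    have h3 : Real.log 2 ≤ 1 := by linarith [Real.log_two_lt_d9]
    have h4 : 2 * l * n ≤ 96000 * (1 + l) ^ 4 := by
      calc 2 * l * n ≤ 2 * (1 + l) * (48000 * (1 + l) ^ 3) := by gcongr; linarith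
        _ = _ := by ring
    linarith
  linarith

/-- The bound for a cyclic group. -/
theorem main : ∃ C : ℝ, 0 < C ∧ ∃ c : ℝ, 0 < c ∧
    ∀ N : ℕ, 0 < N → ∀ A : Finset (ZMod N), A.Nonempty → (A.card : ℝ) / (N : ℝ) ≤ 1 / 2 →
    ∀ K : ℝ, (A.card : ℝ) ^ 3 ≤ K * (A.addEnergy A : ℕ) →
      ∃ Γ : Finset (ZMod N), ∃ ε : ℝ, 0 < ε ∧
        (Γ.card : ℝ) ≤ C * (Real.log ((N : ℝ) / (A.card : ℝ)) + Real.log K ^ 4) ∧
        c / Real.log ((N : ℝ) / (A.card : ℝ)) ≤ ε ∧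
        ∀ x : ZMod N, (∀ γ ∈ Γ, nint (((γ * x).val : ℝ) / (N : ℝ)) ≤ ε) →
          ∃ a₁ ∈ A, ∃ a₂ ∈ A, ∃ a₃ ∈ A, ∃ a₄ ∈ A, x = a₁ + a₂ - a₃ - a₄ := by
  refine ⟨10 ^ 13, by norm_num, 1 / (10 ^ 16), by norm_num, ?_⟩
  intro N hN A hA hα K hK
  have : NeZero N := ⟨hN.ne'⟩
  have hNpos : (0 : ℝ) < N := by exact_mod_cast hN
  have hApos : (0 : ℝ) < A.card := by exact_mod_cast hA.card_pos
  obtain ⟨L, hL⟩ : ∃ L : ℝ, L = Real.log ((N : ℝ) / (A.card : ℝ)) := ⟨_, rfl⟩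
  rw [← hL]
  have hL2 : 0.69 ≤ L := by
    have h1 : (2 : ℝ) ≤ (N : ℝ) / A.card := by
      rw [div_le_iff₀ hNpos] at hα
      rw [le_div_iff₀ hApos]
      linarith
    have h2 := Real.log_le_log (by norm_num) h1
    rw [hL]
    linarith [Real.log_two_gt_d9]
  -- the optimal K
  obtain ⟨E, hE⟩ : ∃ E : ℝ, E = ((A.addEnergy A : ℕ) : ℝ) := ⟨_, rfl⟩
  rw [← hE] at hK
  have hEpos : 0 < E := by
    rw [hE]
    exact_mod_cast addEnergy_self_pos hA
  obtain ⟨K0, hK0⟩ : ∃ K0 : ℝ, K0 = (A.card : ℝ) ^ 3 / E := ⟨_, rfl⟩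
  have hK0K : K0 ≤ K := by
    rw [hK0, div_le_iff₀ hEpos]
    exact hK
  have hEle : E ≤ (A.card : ℝ) ^ 3 := by
    rw [hE]
    have : A.addEnergy A ≤ A.card ^ 3 := by
      rw [addEnergy_eq_card_filter]
      have h1 : ((((A ×ˢ A) ×ˢ A ×ˢ A).filter fun p : (ZMod N × ZMod N) × ZMod N × ZMod N =>
          p.1.1 + p.1.2 = p.2.1 + p.2.2)).card ≤ ((A ×ˢ A) ×ˢ A).card := by
        apply card_le_card_of_injOn (fun p => (p.1, p.2.1))
        · intro p hp
          simp only [coe_filter, mem_product, Set.mem_ofPred_eq] at hp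
          simp only [coe_product, Set.mem_prod, mem_coe]
          exact ⟨⟨hp.1.1.1, hp.1.1.2⟩, hp.1.2.1⟩
        · intro p hp p' hp' hpp
          simp only [coe_filter, mem_product, Set.mem_ofPred_eq] at hp hp'
          simp only [Prod.mk.injEq] at hpp
          have h2 := hp.2
          have h3 := hp'.2
          rw [hpp.1, hpp.2, h3] at h2
          apply Prod.ext hpp.1
          exact Prod.ext hpp.2 (add_left_cancel h2).symm
      refine h1.trans (le_of_eq ?_)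
      rw [card_product, card_product]
      ring
    exact_mod_cast this
  have hK01 : 1 ≤ K0 := by
    rw [hK0, one_le_div hEpos]
    exact hEle
  have hK0N : K0 ≤ (N : ℝ) / A.card := by
    have h1 : (A.card : ℝ) ^ 2 * (A.card : ℝ) ^ 2 ≤ N * E := by
      have h2 := Finset.le_card_add_mul_addEnergy A A
      have h3 : (A + A).card ≤ N := by
        have := card_le_univ (A + A)
        rwa [ZMod.card] at this
      have h4 : A.card ^ 2 * A.card ^ 2 ≤ N * A.addEnergy A := h2.trans (Nat.mul_le_mul_right _ h3)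
      rw [hE]
      exact_mod_cast h4
    rw [hK0, div_le_div_iff₀ hEpos hApos]
    calc (A.card : ℝ) ^ 3 * A.card = (A.card : ℝ) ^ 2 * (A.card : ℝ) ^ 2 := by ring
      _ ≤ N * E := h1
  obtain ⟨k, hk⟩ : ∃ k : ℝ, k = Real.log K0 := ⟨_, rfl⟩
  have hk0 : 0 ≤ k := by rw [hk]; exact Real.log_nonneg hK01
  have hkK : k ≤ Real.log K := by rw [hk]; exact Real.log_le_log (by linarith) hK0K
  have hkL : k ≤ L := by rw [hk, hL]; exact Real.log_le_log (by linarith) hK0N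
  -- Balog-Szemerédi-Gowers
  obtain ⟨B, hBA, hB, hB1, hB2⟩ := Pool.Agent.H217R3.AK.bsg A hA K0 (by linarith) (by
    rw [← hE, hK0]
    field_simp
    exact le_rfl)
  have hBpos : (0 : ℝ) < B.card := by exact_mod_cast hB.card_pos
  obtain ⟨l, hl⟩ : ∃ l : ℝ, l = 16 + 10 * k := ⟨_, rfl⟩
  have hl0 : 0 ≤ l := by rw [hl]; positivity
  have hdiff : ((B - B).card : ℝ) ≤ Real.exp l * B.card := by
    refine hB2.trans ?_
    have h1 : (2 : ℝ) ^ 22 * K0 ^ 10 ≤ Real.exp l := by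
      have h2 : K0 ^ 10 = Real.exp (10 * k) := by
        rw [hk, mul_comm, Real.exp_mul, Real.exp_log (by linarith)]
        exact_mod_cast rfl
      have h3 : (2 : ℝ) ^ 22 ≤ Real.exp 16 := by
        have : (2 : ℝ) ^ 22 = Real.exp (22 * Real.log 2) := by
          rw [mul_comm, Real.exp_mul, Real.exp_log (by norm_num)]
          norm_num
        rw [this]
        apply Real.exp_le_exp.2
        linarith [Real.log_two_lt_d9]
      rw [h2, hl, Real.exp_add]
      gcongr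
    gcongr
  obtain ⟨Λ, hΛ, hmain⟩ := small_diff B hB l hl0 hdiff
  rw [ZMod.card] at hΛ
  have hlogB : Real.log ((N : ℝ) / B.card) ≤ L + k + 3 := by
    have h1 : (N : ℝ) / B.card ≤ ((N : ℝ) / A.card) * (8 * K0) := by
      rw [div_mul_eq_mul_div, div_le_div_iff₀ hBpos hApos]
      calc (N : ℝ) * A.card ≤ N * (8 * K0 * B.card) := by gcongr
        _ = _ := by ring
    have h2 := Real.log_le_log (by positivity) h1
    rw [Real.log_mul (by positivity) (by positivity), Real.log_mul (by norm_num) (by positivity), ← hL, ← hk] at h2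
    have h3 : Real.log 8 ≤ 3 := by
      have : (8 : ℝ) = 2 ^ (3 : ℕ) := by norm_num
      rw [this, Real.log_pow]
      push_cast
      linarith [Real.log_two_lt_d9]
    linarith
  have hpow : (1 + l) ^ 4 ≤ 8 * (17 ^ 4 + 10 ^ 4 * k ^ 4) := by
    rw [hl]
    nlinarith [sq_nonneg (17 - 10 * k), sq_nonneg (17 ^ 2 - (10 * k) ^ 2), mul_nonneg hk0 hk0,
      sq_nonneg (17 + 10 * k), mul_nonneg (mul_nonneg hk0 hk0) (sq_nonneg (17 - 10 * k)), sq_nonneg ((17 - 10 * k) * (17 + 10 * k)),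
      sq_nonneg ((17 - 10 * k) ^ 2)]
  have hΛ2 : (Λ.card : ℝ) + 1 ≤ 8 * 10 ^ 11 * (L + k ^ 4) := by
    have h1 : 1 ≤ 2 * L := by linarith
    have h2 : 0 ≤ k ^ 4 := by positivity
    have h3 := hΛ
    nlinarith
  have hLk : L + k ^ 4 ≤ 5 * L ^ 4 := by
    have h1 : k ^ 4 ≤ L ^ 4 := by gcongr
    have h2 : L ≤ 4 * L ^ 4 := by
      have h3 : (1 : ℝ) ≤ 4 * L ^ 3 := by
        calc (1 : ℝ) ≤ 4 * 0.69 ^ 3 := by norm_num
          _ ≤ 4 * L ^ 3 := by gcongr
      calc L = L * 1 := (mul_one _).symm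
        _ ≤ L * (4 * L ^ 3) := by gcongr
        _ = 4 * L ^ 4 := by ring
    linarith
  have hΛ3 : (Λ.card : ℝ) + 1 ≤ 4 * 10 ^ 12 * L ^ 4 := by linarith
  -- the exchange
  obtain ⟨R, hR⟩ : ∃ R : ℕ, R = ⌈10 ^ 4 * L⌉₊ := ⟨_, rfl⟩
  have hR1 : 10 ^ 4 * L ≤ R := by rw [hR]; exact Nat.le_ceil _
  have hR2 : (R : ℝ) ≤ 2 * 10 ^ 4 * L := by
    rw [hR]
    have := Nat.ceil_lt_add_one (show 0 ≤ 10 ^ 4 * L by linarith)
    linarith
  have hR0 : 1 ≤ R := by
    have : (1 : ℝ) ≤ R := by linarith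
    exact_mod_cast this
  have hRpos : (0 : ℝ) < R := by exact_mod_cast hR0
  obtain ⟨Γ, hΓ, htr⟩ := transfer Λ R 11 hR0
  refine ⟨Γ, 1 / (4 * R), by positivity, ?_, ?_, ?_⟩
  · have h1 : (Γ.card : ℝ) ≤ 12 * Λ.card := by
      have : Γ.card ≤ 12 * Λ.card := hΓ
      exact_mod_cast this
    have h2 : k ^ 4 ≤ Real.log K ^ 4 := by gcongr
    calc (Γ.card : ℝ) ≤ 12 * Λ.card := h1
      _ ≤ 12 * (8 * 10 ^ 11 * (L + k ^ 4)) := by linarith
      _ ≤ 10 ^ 13 * (L + k ^ 4) := by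
          have : 0 ≤ L + k ^ 4 := by positivity
          nlinarith
      _ ≤ _ := by gcongr
  · have hLpos : 0 < L := by linarith
    rw [div_le_div_iff₀ hLpos (by positivity)]
    calc 1 / 10 ^ 16 * (4 * (R : ℝ)) ≤ 1 / 10 ^ 16 * (4 * (2 * 10 ^ 4 * L)) := by gcongr
      _ ≤ 1 * L := by nlinarith
  · intro x hx
    have h1 := htr x hx
    have h2 : ∀ ψ ∈ Λ, ‖ψ x - 1‖ ≤ 1 / (216 * ((Λ.card : ℝ) + 1) ^ 3) := by
      intro ψ hψ
      refine (h1 ψ hψ).trans ?_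
      have h3 : (216 : ℝ) * ((Λ.card : ℝ) + 1) ^ 3 ≤ 216 * (4 * 10 ^ 12 * L ^ 4) ^ 3 := by gcongr
      have h4 : (10 ^ 4 * L) ^ 12 ≤ (R : ℝ) ^ 12 := by gcongr
      have h4' : (10 ^ 4 * L) ^ 12 ≤ (R : ℝ) ^ (11 + 1) := h4
      have h5 : 2 * Real.pi * (216 * (4 * 10 ^ 12 * L ^ 4) ^ 3) ≤ 4 * (R : ℝ) ^ (11 + 1) := by
        have hpi : Real.pi ≤ 4 := Real.pi_le_four
        calc 2 * Real.pi * (216 * (4 * 10 ^ 12 * L ^ 4) ^ 3) ≤ 2 * 4 * (216 * (4 * 10 ^ 12 * L ^ 4) ^ 3) := by gcongr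
          _ = 2 * 4 * 216 * 64 * 10 ^ 36 * L ^ 12 := by ring
          _ ≤ 4 * (10 ^ 4 * L) ^ 12 := by
            have : 0 ≤ L ^ 12 := by positivity
            nlinarith
          _ ≤ _ := by gcongr
      have h6 : 2 * Real.pi * (216 * ((Λ.card : ℝ) + 1) ^ 3) ≤ 4 * (R : ℝ) ^ (11 + 1) := by
        refine le_trans ?_ h5
        gcongr
      have h7 : 2 * Real.pi * (1 / (4 * (R : ℝ) ^ (11 + 1))) = 2 * Real.pi / (4 * (R : ℝ) ^ (11 + 1)) := by ring
      rw [h7, div_le_div_iff₀ (by positivity) (by positivity)]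
      linarith
    obtain ⟨a₁, h₁, a₂, h₂, a₃, h₃, a₄, h₄, hxe⟩ := hmain x h2
    exact ⟨a₁, hBA h₁, a₂, hBA h₂, a₃, hBA h₃, a₄, hBA h₄, hxe⟩

end Pool.Agent.K4H60.BZ
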