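import Mathlib

/-!
# Almost periods by sampling (Croot and Sisask)
-/

set_option autoImplicit false
set_option linter.unusedSectionVars false

namespace Pool.Agent.K4H60.BZ

open Finset
open scoped Pointwise

/-- exponential moment of a sampled sum -/
theorem exp_moment {G : Type*} [DecidableEq G] (A : Finset G) (n : ℕ) (X : G → ℝ)
    (hX : ∀ a ∈ A, |X a| ≤ 1) (h0 : ∑ a ∈ A, X a = 0) (t : ℝ) :
    ∑ v ∈ Fintype.piFinset (fun _ : Fin n => A), Real.exp (t * ∑ i, X (v i)) ≤
      (A.card : ℝ) ^ n * Real.exp (n * t ^ 2 / 2) := by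
  have h1 : ∀ v : Fin n → G, Real.exp (t * ∑ i, X (v i)) = ∏ i, Real.exp (t * X (v i)) := by
    intro v
    rw [← Real.exp_sum, mul_sum]
  simp_rw [h1]
  rw [← Finset.prod_univ_sum (fun _ : Fin n => A) (fun _ a => Real.exp (t * X a))]
  rw [prod_const, card_univ, Fintype.card_fin]
  have h2 : ∑ a ∈ A, Real.exp (t * X a) ≤ A.card * Real.exp (t ^ 2 / 2) := by
    calc ∑ a ∈ A, Real.exp (t * X a) ≤ ∑ a ∈ A, (Real.cosh t + X a * Real.sinh t) := by
          apply sum_le_sum
          intro a ha
          rw [mul_comm]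
          exact Real.exp_mul_le_cosh_add_mul_sinh (hX a ha) t
      _ = A.card * Real.cosh t := by
          rw [sum_add_distrib, ← sum_mul, h0]
          simp
      _ ≤ _ := by
          gcongr
          exact Real.cosh_le_exp_half_sq t
  have h3 : 0 ≤ ∑ a ∈ A, Real.exp (t * X a) := sum_nonneg fun a _ => (Real.exp_pos _).le
  calc (∑ a ∈ A, Real.exp (t * X a)) ^ n ≤ (A.card * Real.exp (t ^ 2 / 2)) ^ n := by gcongr
    _ = (A.card : ℝ) ^ n * Real.exp (n * t ^ 2 / 2) := by
        rw [mul_pow, ← Real.exp_nat_mul]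
        congr 2
        ring

theorem pow_le_exp (q : ℕ) (y : ℝ) :
    y ^ (2 * q) ≤ (Nat.factorial (2 * q) : ℝ) * (Real.exp y + Real.exp (-y)) := by
  have h1 : y ^ (2 * q) = |y| ^ (2 * q) := by
    rw [pow_mul, pow_mul, sq_abs]
  have h2 := Real.pow_div_factorial_le_exp |y| (abs_nonneg y) (2 * q)
  have hf : (0 : ℝ) < (Nat.factorial (2 * q) : ℝ) := by exact_mod_cast Nat.factorial_pos _
  rw [div_le_iff₀ hf] at h2
  have h3 : Real.exp |y| ≤ Real.exp y + Real.exp (-y) := by
    rcases abs_cases y with ⟨h, _⟩ | ⟨h, _⟩ <;> rw [h]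
    · linarith [Real.exp_pos (-y)]
    · linarith [Real.exp_pos y]
  rw [h1]
  calc |y| ^ (2 * q) ≤ Real.exp |y| * (Nat.factorial (2 * q) : ℝ) := h2
    _ ≤ (Real.exp y + Real.exp (-y)) * (Nat.factorial (2 * q) : ℝ) := by gcongr
    _ = _ := by ring

/-- even moments of a sampled sum -/
theorem moment {G : Type*} [DecidableEq G] (A : Finset G) (n q : ℕ) (hn : 0 < n) (hq : 0 < q)
    (X : G → ℝ) (hX : ∀ a ∈ A, |X a| ≤ 1) (h0 : ∑ a ∈ A, X a = 0) :
    ∑ v ∈ Fintype.piFinset (fun _ : Fin n => A), (∑ i, X (v i)) ^ (2 * q) ≤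
      2 * (A.card : ℝ) ^ n * (2 * Real.exp 1 * q * n) ^ q := by
  have hn' : (0 : ℝ) < n := by exact_mod_cast hn
  have hq' : (0 : ℝ) < q := by exact_mod_cast hq
  obtain ⟨t, ht⟩ : ∃ t : ℝ, t = Real.sqrt (2 * q / n) := ⟨_, rfl⟩
  have ht2 : t ^ 2 = 2 * q / n := by
    rw [ht, Real.sq_sqrt (by positivity)]
  have h1 : ∑ v ∈ Fintype.piFinset (fun _ : Fin n => A), (t * ∑ i, X (v i)) ^ (2 * q) ≤
      (Nat.factorial (2 * q) : ℝ) * (2 * ((A.card : ℝ) ^ n * Real.exp (n * t ^ 2 / 2))) := by
    calc _ ≤ ∑ v ∈ Fintype.piFinset (fun _ : Fin n => A), (Nat.factorial (2 * q) : ℝ) *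
          (Real.exp (t * ∑ i, X (v i)) + Real.exp (-(t * ∑ i, X (v i)))) :=
          sum_le_sum fun v _ => pow_le_exp q _
      _ = (Nat.factorial (2 * q) : ℝ) *
          (∑ v ∈ Fintype.piFinset (fun _ : Fin n => A), Real.exp (t * ∑ i, X (v i)) +
          ∑ v ∈ Fintype.piFinset (fun _ : Fin n => A), Real.exp ((-t) * ∑ i, X (v i))) := by
          rw [← mul_sum, ← sum_add_distrib]
          simp only [neg_mul]
      _ ≤ _ := by
          have e1 := exp_moment A n X hX h0 t
          have e2 := exp_moment A n X hX h0 (-t)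
          rw [neg_sq] at e2
          gcongr
          linarith
  have h2 : (n : ℝ) * t ^ 2 / 2 = q := by
    rw [ht2]; field_simp
  rw [h2] at h1
  have h3 : ∀ v : Fin n → G, (t * ∑ i, X (v i)) ^ (2 * q) = (2 * q / n) ^ q * (∑ i, X (v i)) ^ (2 * q) := by
    intro v
    rw [mul_pow, pow_mul t, ht2]
  simp_rw [h3] at h1
  rw [← mul_sum] at h1
  have hf : (Nat.factorial (2 * q) : ℝ) ≤ (2 * q) ^ (2 * q) := by
    exact_mod_cast Nat.factorial_le_pow (2 * q)
  have hpos : (0 : ℝ) < (2 * q / n) ^ q := by positivity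
  have h4 : (2 * q / n : ℝ) ^ q * ∑ v ∈ Fintype.piFinset (fun _ : Fin n => A), (∑ i, X (v i)) ^ (2 * q) ≤
      (2 * q / n : ℝ) ^ q * (2 * (A.card : ℝ) ^ n * (2 * Real.exp 1 * q * n) ^ q) := by
    refine h1.trans ?_
    calc (Nat.factorial (2 * q) : ℝ) * (2 * ((A.card : ℝ) ^ n * Real.exp q))
        ≤ (2 * q) ^ (2 * q) * (2 * ((A.card : ℝ) ^ n * Real.exp q)) := by gcongr
      _ = _ := by
          have e1 : Real.exp (q : ℝ) = (Real.exp 1) ^ q := by
            rw [← Real.exp_nat_mul, mul_one]
          rw [e1]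
          have e2 : (2 * q / n : ℝ) ^ q * (2 * Real.exp 1 * q * n) ^ q = (2 * q) ^ (2 * q) * (Real.exp 1) ^ q := by
            rw [← mul_pow, pow_mul, ← mul_pow]
            congr 1
            field_simp
          calc _ = ((2 * q : ℝ) ^ (2 * q) * (Real.exp 1) ^ q) * (2 * (A.card : ℝ) ^ n) := by ring
            _ = _ := by rw [← e2]; ring
  exact le_of_mul_le_mul_left h4 hpos

section

variable {G : Type*} [AddCommGroup G] [Fintype G] [DecidableEq G]

/-- the indicator function -/
noncomputable def ind (D : Finset G) (x : G) : ℝ := if x ∈ D then 1 else 0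

theorem ind_nonneg (D : Finset G) (x : G) : 0 ≤ ind D x := by
  unfold ind; split_ifs <;> norm_num

theorem ind_le_one (D : Finset G) (x : G) : ind D x ≤ 1 := by
  unfold ind; split_ifs <;> norm_num

/-- the proportion of the `a ∈ A` with `a + z ∈ D` -/
noncomputable def hh (A D : Finset G) (z : G) : ℝ := (∑ a ∈ A, ind D (a + z)) / A.card

theorem hh_nonneg (A D : Finset G) (z : G) : 0 ≤ hh A D z :=
  div_nonneg (sum_nonneg fun a _ => ind_nonneg _ _) (Nat.cast_nonneg _)

theorem hh_le_one (A D : Finset G) (z : G) : hh A D z ≤ 1 := by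
  unfold hh
  apply div_le_one_of_le₀ _ (Nat.cast_nonneg _)
  calc ∑ a ∈ A, ind D (a + z) ≤ ∑ a ∈ A, (1 : ℝ) := sum_le_sum fun a _ => ind_le_one _ _
    _ = _ := by simp

theorem sampled (A D S : Finset G) (hA : A.Nonempty) (hD : D.Nonempty) (hS : S.Nonempty) (n q : ℕ)
    (hn : 0 < n) (hq : 0 < q) :
    ∃ T ⊆ S, S.card * A.card ^ n ≤ 2 * (A + S).card ^ n * T.card ∧ ∃ F : G → ℝ, ∀ s ∈ T,
      ∑ z, (F z - n * hh A D (z + s)) ^ (2 * q) ≤ 4 * ((D - A).card : ℝ) * (2 * Real.exp 1 * q * n) ^ q := by
  classical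
  have hn' : (0 : ℝ) < n := by exact_mod_cast hn
  have hq' : (0 : ℝ) < q := by exact_mod_cast hq
  have hApos : (0 : ℝ) < A.card := by exact_mod_cast hA.card_pos
  obtain ⟨M, hM⟩ : ∃ M : ℝ, M = 4 * ((D - A).card : ℝ) * (2 * Real.exp 1 * q * n) ^ q := ⟨_, rfl⟩
  have hDA : (0 : ℝ) < ((D - A).card : ℝ) := by exact_mod_cast (hD.sub hA).card_pos
  have hMpos : 0 < M := by rw [hM]; positivity
  rw [← hM]
  -- the error function
  obtain ⟨E, hE⟩ : ∃ E : (Fin n → G) → ℝ, E = fun v => ∑ z, (∑ i, (ind D (v i + z) - hh A D z)) ^ (2 * q) := ⟨_, rfl⟩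
  have hE0 : ∀ v, 0 ≤ E v := by
    intro v
    rw [hE]
    exact sum_nonneg fun z _ => by rw [pow_mul]; positivity
  have hsum : ∑ v ∈ Fintype.piFinset (fun _ : Fin n => A), E v ≤ (A.card : ℝ) ^ n * M / 2 := by
    rw [hE]
    simp only
    rw [sum_comm]
    have h1 : ∀ z ∈ (univ : Finset G), ∑ v ∈ Fintype.piFinset (fun _ : Fin n => A),
        (∑ i, (ind D (v i + z) - hh A D z)) ^ (2 * q) ≤
        if z ∈ D - A then 2 * (A.card : ℝ) ^ n * (2 * Real.exp 1 * q * n) ^ q else 0 := by
      intro z _
      split_ifs with hz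
      · refine moment A n q hn hq (fun a => ind D (a + z) - hh A D z) ?_ ?_
        · intro a _
          have e1 := ind_nonneg D (a + z)
          have e2 := ind_le_one D (a + z)
          have e3 := hh_nonneg A D z
          have e4 := hh_le_one A D z
          rw [abs_le]
          constructor <;> linarith
        · rw [sum_sub_distrib, sum_const, nsmul_eq_mul]
          unfold hh
          field_simp
          ring
      · have e0 : ∀ a ∈ A, ind D (a + z) = 0 := by
          intro a ha
          unfold ind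
          rw [if_neg]
          intro h
          apply hz
          have : z = (a + z) - a := by abel
          rw [this]
          exact sub_mem_sub h ha
        have e1 : hh A D z = 0 := by
          unfold hh
          rw [sum_eq_zero e0, zero_div]
        apply le_of_eq
        apply sum_eq_zero
        intro v hv
        rw [Fintype.mem_piFinset] at hv
        have e2 : ∑ i, (ind D (v i + z) - hh A D z) = 0 := by
          apply sum_eq_zero
          intro i _
          rw [e0 _ (hv i), e1, sub_zero]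
        rw [e2]
        exact zero_pow (by omega)
    refine (sum_le_sum h1).trans ?_
    rw [← sum_filter, sum_const, nsmul_eq_mul]
    have h2 : (univ.filter fun z => z ∈ D - A) = D - A := by
      ext z; simp
    rw [h2, hM]
    apply le_of_eq
    ring
  obtain ⟨good, hgood⟩ : ∃ good : Finset (Fin n → G), good = (Fintype.piFinset (fun _ : Fin n => A)).filter
    fun v => E v ≤ M := ⟨_, rfl⟩
  have hcardP : (Fintype.piFinset (fun _ : Fin n => A)).card = A.card ^ n := by
    rw [Fintype.card_piFinset, prod_const, card_univ, Fintype.card_fin]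
  have hgoodcard : (A.card : ℝ) ^ n ≤ 2 * good.card := by
    have h1 : (((Fintype.piFinset (fun _ : Fin n => A)).filter fun v => ¬ E v ≤ M).card : ℝ) * M ≤
        (A.card : ℝ) ^ n * M / 2 := by
      refine le_trans ?_ hsum
      rw [← nsmul_eq_mul, ← sum_const]
      refine (sum_le_sum (g := E) ?_).trans (sum_le_sum_of_subset_of_nonneg (filter_subset _ _) fun v _ _ => hE0 v)
      intro v hv
      rw [mem_filter, not_le] at hv
      exact hv.2.le
    have h2 : (good.card : ℝ) + (((Fintype.piFinset (fun _ : Fin n => A)).filter fun v => ¬ E v ≤ M).card : ℝ) =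
        (A.card : ℝ) ^ n := by
      rw [hgood]
      have := card_filter_add_card_filter_not (s := Fintype.piFinset (fun _ : Fin n => A)) (fun v => E v ≤ M)
      rw [hcardP] at this
      exact_mod_cast this
    have h3 : (((Fintype.piFinset (fun _ : Fin n => A)).filter fun v => ¬ E v ≤ M).card : ℝ) ≤ (A.card : ℝ) ^ n / 2 := by
      have : (((Fintype.piFinset (fun _ : Fin n => A)).filter fun v => ¬ E v ≤ M).card : ℝ) * M ≤
        ((A.card : ℝ) ^ n / 2) * M := by linarith
      exact le_of_mul_le_mul_right this hMpos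
    linarith
  have hgoodcard' : A.card ^ n ≤ 2 * good.card := by exact_mod_cast hgoodcard
  -- pigeonhole
  obtain ⟨T, hT⟩ : ∃ T : (Fin n → G) → Finset G, T = fun w => S.filter fun s => (fun i => w i - s) ∈ good := ⟨_, rfl⟩
  have hpig : ∃ w ∈ Fintype.piFinset (fun _ : Fin n => A + S), S.card * A.card ^ n ≤
      2 * (A + S).card ^ n * (T w).card := by
    by_contra hcon
    push Not at hcon
    have hmaps : ∀ p ∈ good ×ˢ S, (fun i => p.1 i + p.2) ∈ Fintype.piFinset (fun _ : Fin n => A + S) := by
      intro p hp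
      rw [mem_product, hgood, mem_filter, Fintype.mem_piFinset] at hp
      rw [Fintype.mem_piFinset]
      intro i
      exact add_mem_add (hp.1.1 i) hp.2
    have h1 := card_eq_sum_card_fiberwise hmaps
    have h2 : ∀ w ∈ Fintype.piFinset (fun _ : Fin n => A + S),
        ((good ×ˢ S).filter fun p => (fun i => p.1 i + p.2) = w).card ≤ (T w).card := by
      intro w _
      apply card_le_card_of_injOn (fun p => p.2)
      · intro p hp
        simp only [coe_filter, mem_product, Set.mem_ofPred_eq] at hp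
        rw [hT]
        simp only [coe_filter, Set.mem_ofPred_eq]
        refine ⟨hp.1.2, ?_⟩
        have : (fun i => w i - p.2) = p.1 := by
          funext i
          rw [← hp.2]
          simp
        rw [this]
        exact hp.1.1
      · intro p hp p' hp' hpp
        simp only [coe_filter, mem_product, Set.mem_ofPred_eq] at hp hp'
        have h3 : p.2 = p'.2 := hpp
        apply Prod.ext _ h3
        funext i
        have h4 : p.1 i + p.2 = p'.1 i + p'.2 := congrFun (hp.2.trans hp'.2.symm) i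
        rw [h3] at h4
        exact add_right_cancel h4
    have h3 : (good ×ˢ S).card ≤ ∑ w ∈ Fintype.piFinset (fun _ : Fin n => A + S), (T w).card := by
      rw [h1]
      exact sum_le_sum h2
    have hne : (Fintype.piFinset (fun _ : Fin n => A + S)).Nonempty := by
      rw [Fintype.piFinset_nonempty]
      intro _
      exact hA.add hS
    have h4 : ∑ w ∈ Fintype.piFinset (fun _ : Fin n => A + S), 2 * (A + S).card ^ n * (T w).card <
        ∑ w ∈ Fintype.piFinset (fun _ : Fin n => A + S), S.card * A.card ^ n :=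
      sum_lt_sum_of_nonempty hne hcon
    rw [← mul_sum, sum_const, Fintype.card_piFinset, prod_const, card_univ, Fintype.card_fin,
      smul_eq_mul] at h4
    have h5 : 2 * (A + S).card ^ n * (good.card * S.card) < (A + S).card ^ n * (S.card * A.card ^ n) := by
      refine lt_of_le_of_lt ?_ h4
      rw [← card_product]
      exact Nat.mul_le_mul_left _ h3
    have h6 : (A + S).card ^ n * (S.card * A.card ^ n) ≤ (A + S).card ^ n * (S.card * (2 * good.card)) := by
      gcongr
    have h7 : (A + S).card ^ n * (S.card * (2 * good.card)) = 2 * (A + S).card ^ n * (good.card * S.card) := by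
      ring
    omega
  obtain ⟨w, _, hw⟩ := hpig
  refine ⟨T w, by rw [hT]; exact filter_subset _ _, hw, fun z => ∑ i, ind D (w i + z), ?_⟩
  intro s hs
  rw [hT] at hs
  simp only [mem_filter] at hs
  have h1 := hs.2
  rw [hgood, mem_filter] at h1
  have h2 := h1.2
  rw [hE] at h2
  simp only at h2
  refine le_trans (le_of_eq ?_) h2
  refine Eq.trans ?_ (Equiv.sum_comp (Equiv.addRight s) _)
  apply sum_congr rfl
  intro z _
  congr 1
  simp only [Equiv.coe_addRight]
  rw [sum_sub_distrib, sum_const, card_univ, Fintype.card_fin, nsmul_eq_mul]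
  congr 1
  apply sum_congr rfl
  intro i _
  congr 1
  abel

end

end Pool.Agent.K4H60.BZ
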